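import Mathlib
import Pool.Agent.H18.Wd.KFin

set_option autoImplicit false

/-!
# `ζ(3)`, `ζ(3) / π³`, Euler's constant and the Bessel means of the tails of `ζ(k)` at algebraic points

For an integer `k ≥ 2` and a complex number `z` with `I_0(z) ≠ 0` let
`R_k(z) = I_0(z)^(-1) * ∑_j (z / 2)^(2j) / j!^2 * ∑_{n > j} 1/n^k`, the mean of the tails `∑_{n > j} 1/n^k` of `ζ(k)` with the weights
`(z / 2)^(2j) / j!^2` of the Bessel function `I_0(z) = ∑_j (z / 2)^(2j) / j!^2`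
(`R_k(z) → ζ(k)` for `z → 0`, and `R_k(z) = ζ(k) - V_k(z) / I_0(z)` where `V_k(z) = ∑_n H_n^(k) (z / 2)^(2n) / n!^2`,
`H_n^(k) = ∑_{j ≤ n} 1/j^k`).

Let `𝓔` be the field generated by all numbers `b`, `exp b`, `I_0(b)`, `I_1(b)`, `A_k(b) = ∑_{n ≥ 1} (b / 2)^(2n) / (n!^2 n^k)`,
`C_k(b) = ∑_{n ≥ 1} H_n (b / 2)^(2n) / (n!^2 n^k)` (`k ≥ 0`, `H_n` the harmonic numbers) and
`W_k(b) = (b / 2) (I_0(b) V_k'(b) - I_1(b) V_k(b))` (`k ≥ 2`), where `b` is algebraic.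

For integers `l ≥ 1`, `k ≥ 2`, for positive real `x` and for complex `z` let
`δ_l(x) = ∫_0^∞ log (1 + s / x)^l exp (-s) ds` (`δ_1(1)` is Gompertz's constant) and
`T_k(z) = exp (-z) * ∑_j z^j/j! * ∑_{n > j} 1/n^k` (the Poisson mean of the tails of `ζ(k)`).

Let `X` be a set of algebraic numbers such that `x + x' ≠ 0` for all `x, x'` in `X`, and `Z` a set of algebraic numbers `z ≠ 0` with
different squares.

(1) The numbers `ζ(k) - R_k(z)` (`k ≥ 2`, `z ∈ Z`) and `ζ(k) - T_k(x)` (`k ≥ 2`, `x ∈ X`) are algebraically independent over `𝓔`.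

(2) Let `y_1, …, y_r` be complex numbers, `Q` a set of integers `k ≥ 2` which contains `2, 3, …, L`, and `P` a set of positive
algebraic numbers. Suppose that the numbers `ζ(k)` (`k ∈ Q`) and `γ + log x` (`x ∈ P`) are algebraic over `𝓔(y_1, …, y_r)`.
For every `n`, the field generated over `𝓔` by `y_1, …, y_r` and any `n` of the numbers `R_k(z)` (`k ∈ Q`, `z ∈ Z`),
`T_k(x)` (`k ∈ Q`, `x ∈ X`), `δ_l(x)` (`1 ≤ l ≤ L`, `x ∈ P`) has transcendence degree at least `n` over `𝓔`, and at most `r` of all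
these numbers and `y_1, …, y_r` are algebraic over `𝓔`.

(3) For every `c ≥ 0` at most `c + 2` of the numbers `ζ(3), ζ(3) / π³, ζ(5), ζ(7), …, ζ(2c + 3)`, `R_k(z)`, `T_k(x)`
(`k ≥ 2` even or `k ≤ 2c + 3`, `z ∈ Z`, `x ∈ X`) are algebraic over `𝓔`.

(4) Let `b_1, …, b_m` be positive algebraic numbers and `G` the set of the positive numbers of which a
power with exponent `≥ 1` is in the group generated by `b_1, …, b_m`. For every `c ≥ 0` at most `m + c + 3` of the numbers in (3)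
and `γ, log b_1, …, log b_m`, `δ_l(x)` (`1 ≤ l ≤ 2c + 4`, `x ∈ G`) are algebraic over `𝓔`.

For instance at most one of the numbers `ζ(3)`, `R_3(z)` (`z ∈ Z`), `T_3(x)` (`x ∈ X`) is algebraic over `𝓔`.

Numbers of different names are counted separately. The proof: let `f(x) = I_0(a x)`. The iterated integrals (with respect to `dx / x`)
of words in the letters `f`, `f^2`, `f^(-2)` for a finite set of numbers `a` with different squares are linearly independent over the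
field generated by `f`, `f'` and all iterated integrals of exponential polynomials. The functions `A_k`, `C_k`, `W_k`, `V_k` are, up
to factors `f`, linear combinations of such integrals (by variation of constants), and their algebraic independence
(without the `W_k` for odd `k`, which are polynomials in the `A_j`) follows with derivations of the shuffle algebra.
The values are then independent by the method of Siegel and Shidlovskii.
-/

namespace Pool.Agent.Results.MP_e48a95_nt.BesselMeansOfZetaTails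

open Set Filter Topology MeasureTheory

/-- `H_n^(k) = ∑_{j ≤ n} 1/j^k` -/
noncomputable def harmonic (k n : ℕ) : ℂ := ∑ j ∈ Finset.range n, 1 / ((j : ℂ) + 1) ^ k

/-- `I_0(z)` -/
noncomputable def I0 (z : ℂ) : ℂ := ∑' n : ℕ, (z ^ 2 / 4) ^ n / (n.factorial : ℂ) ^ 2

/-- `I_1(z)` -/
noncomputable def I1 (z : ℂ) : ℂ := z / 2 * ∑' n : ℕ, (z ^ 2 / 4) ^ n / ((n.factorial : ℂ) * ((n + 1).factorial : ℂ))

/-- `A_k(z) = ∑_{n ≥ 1} (z / 2)^(2n) / (n!^2 n^k)` -/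
noncomputable def A (k : ℕ) (z : ℂ) : ℂ :=
  ∑' n : ℕ, (z ^ 2 / 4) ^ (n + 1) / (((n + 1).factorial : ℂ) ^ 2 * ((n : ℂ) + 1) ^ k)

/-- `C_k(z) = ∑_{n ≥ 1} H_n (z / 2)^(2n) / (n!^2 n^k)` -/
noncomputable def C (k : ℕ) (z : ℂ) : ℂ :=
  ∑' n : ℕ, harmonic 1 (n + 1) * ((z ^ 2 / 4) ^ (n + 1) / (((n + 1).factorial : ℂ) ^ 2 * ((n : ℂ) + 1) ^ k))

/-- `V_k(z) = ∑_n H_n^(k) (z / 2)^(2n) / n!^2` -/
noncomputable def V (k : ℕ) (z : ℂ) : ℂ := ∑' n : ℕ, harmonic k n * ((z ^ 2 / 4) ^ n / (n.factorial : ℂ) ^ 2)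

/-- `(z / 2) V_k'(z)` -/
noncomputable def dV (k : ℕ) (z : ℂ) : ℂ := ∑' n : ℕ, (n : ℂ) * (harmonic k n * ((z ^ 2 / 4) ^ n / (n.factorial : ℂ) ^ 2))

/-- `W_k(z) = (z / 2) (I_0(z) V_k'(z) - I_1(z) V_k(z))` -/
noncomputable def W (k : ℕ) (z : ℂ) : ℂ := I0 z * dV k z - z / 2 * I1 z * V k z

/-- `R_k(z)` -/
noncomputable def R (k : ℕ) (z : ℂ) : ℂ :=
  (∑' j : ℕ, (z ^ 2 / 4) ^ j / (j.factorial : ℂ) ^ 2 * ∑' i : ℕ, 1 / ((i : ℂ) + j + 1) ^ k) / I0 z

/-- `T_k(z)` -/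
noncomputable def T (k : ℕ) (z : ℂ) : ℂ :=
  Complex.exp (-z) * ∑' j : ℕ, z ^ j / j.factorial * ∑' i : ℕ, 1 / ((i : ℂ) + j + 1) ^ k

/-- `δ_l(x) = ∫_0^∞ log (1 + s / x)^l e^(-s) ds` -/
noncomputable def delta (l : ℕ) (x : ℝ) : ℝ := ∫ s in Ioi (0 : ℝ), Real.log (1 + s / x) ^ l * Real.exp (-s)

/-- the field `𝓔` -/
noncomputable def baseField : IntermediateField ℚ ℂ := IntermediateField.adjoin ℚ
  {w | ∃ b : ℂ, IsAlgebraic ℚ b ∧ (w = b ∨ w = Complex.exp b ∨ w = I0 b ∨ w = I1 b ∨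
    ∃ k : ℕ, w = A k b ∨ w = C k b ∨ w = W (k + 2) b)}

/-- `w` is algebraic over `𝓔` -/
def AlgebraicOver (w : ℂ) : Prop := IsAlgebraic baseField w

/-- `w` is algebraic over the field generated by `𝓔` and the numbers `y_j` -/
def AlgebraicOverAnd {τ : Type} (y : τ → ℂ) (w : ℂ) : Prop :=
  IsAlgebraic (IntermediateField.adjoin baseField (range y)) w

/-- the names of the numbers -/
inductive Name : Type
  /-- `R_k(z)` -/
  | bessel (k : ℕ) (z : ℂ) : Name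
  /-- `T_k(x)` -/
  | mean (k : ℕ) (x : ℂ) : Name
  /-- `δ_l(x)` -/
  | gompertz (l : ℕ) (x : ℝ) : Name

/-- the numbers -/
noncomputable def value : Name → ℂ
  | .bessel k z => R k z
  | .mean k x => T k x
  | .gompertz l x => (delta l x : ℂ)

/-- the names of the numbers `R_k(z)` (`k ∈ Q`, `z ∈ Z`), `T_k(x)` (`k ∈ Q`, `x ∈ X`), `δ_l(x)` (`1 ≤ l ≤ L`, `x ∈ P`) -/
def names (Q : Set ℕ) (Z X : Set ℂ) (L : ℕ) (P : Set ℝ) : Set Name :=
  {n | (∃ k ∈ Q, ∃ z ∈ Z, n = .bessel k z) ∨ (∃ k ∈ Q, ∃ x ∈ X, n = .mean k x) ∨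
    ∃ l x, 1 ≤ l ∧ l ≤ L ∧ x ∈ P ∧ n = .gompertz l x}

/-- the indices `j` for which `y_j` is algebraic over `𝓔`, and the names in `S` of the numbers which are algebraic over `𝓔` -/
def algebraicOnes {τ : Type} (y : τ → ℂ) (S : Set Name) : Set (τ ⊕ Name) :=
  {n | Sum.elim (fun j => AlgebraicOver (y j)) (fun i => i ∈ S ∧ AlgebraicOver (value i)) n}

/-- algebraic numbers `x` such that `x + x' ≠ 0` for all `x, x'` in the set -/
def NoOpposite (X : Set ℂ) : Prop := ∀ x ∈ X, IsAlgebraic ℚ x ∧ ∀ x' ∈ X, x + x' ≠ 0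

/-- algebraic numbers `z ≠ 0` with different squares -/
def DifferentSquares (Z : Set ℂ) : Prop :=
  ∀ z ∈ Z, IsAlgebraic ℚ z ∧ z ≠ 0 ∧ ∀ z' ∈ Z, z ^ 2 = z' ^ 2 → z = z'

/-- the positive numbers of which a power with exponent `≥ 1` is in the group generated by `b_1, …, b_m` -/
def group {m : ℕ} (b : Fin m → ℝ) : Set ℝ := {x | 0 < x ∧ ∃ n : ℕ, 1 ≤ n ∧ ∃ e : Fin m → ℤ, x ^ n = ∏ i, b i ^ e i}

/-- the exponents `k ≥ 2` which are even or at most `2c + 3` -/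
def exponents (c : ℕ) : Set ℕ := {k | 2 ≤ k ∧ (Even k ∨ k ≤ 2 * c + 3)}

/-- the numbers `ζ(3), ζ(3) / π³, ζ(5), ζ(7), …, ζ(2c + 3)` -/
noncomputable def zetas (c : ℕ) : Fin 2 ⊕ Fin c → ℂ :=
  Sum.elim ![riemannZeta 3, riemannZeta 3 / (Real.pi : ℂ) ^ 3] fun i => riemannZeta ((2 * i + 5 : ℕ) : ℂ)

/-- the numbers `ζ(3), ζ(3) / π³, γ`, `ζ(5), ζ(7), …, ζ(2c + 3)`, `log b_1, …, log b_m` -/
noncomputable def constants (c : ℕ) {m : ℕ} (b : Fin m → ℝ) : Fin 3 ⊕ (Fin c ⊕ Fin m) → ℂ :=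
  Sum.elim ![riemannZeta 3, riemannZeta 3 / (Real.pi : ℂ) ^ 3, (Real.eulerMascheroniConstant : ℂ)]
    (Sum.elim (fun i => riemannZeta ((2 * i + 5 : ℕ) : ℂ)) fun i => (Real.log (b i) : ℂ))

open Pool.Agent.N902.EW Pool.Agent.H18.Bes Pool.Agent.H18.Wd

theorem harmonic_eq (k n : ℕ) : harmonic k n = hz ℂ k n := rfl
theorem I0_eq (z : ℂ) : I0 z = Pool.Agent.H18.Bes.I0 z := rfl
theorem I1_eq (z : ℂ) : I1 z = Pool.Agent.H18.Bes.I1 z := rfl
theorem A_eq (k : ℕ) (z : ℂ) : A k z = Av k z := rfl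
theorem C_eq (k : ℕ) (z : ℂ) : C k z = Cv k z := rfl
theorem V_eq (k : ℕ) (z : ℂ) : V k z = Vv k z := rfl
theorem dV_eq (k : ℕ) (z : ℂ) : dV k z = Vd k z := rfl
theorem W_eq (k : ℕ) (z : ℂ) : W k z = Wv k z := rfl
theorem R_eq (k : ℕ) (z : ℂ) : R k z = RT k z := rfl
theorem T_eq (k : ℕ) (z : ℂ) : T k z = PT k z := rfl

theorem A_zero (b : ℂ) : A 0 b = I0 b - 1 := by
  have h1 : Summable fun j : ℕ => (b ^ 2 / 4) ^ j / (j.factorial : ℂ) ^ 2 := (summ_I0 (b ^ 2 / 4)).of_norm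
  rw [I0, h1.tsum_eq_zero_add, A]
  simp

theorem baseField_eq : baseField = KB := by
  refine le_antisymm (IntermediateField.adjoin_le_iff.2 ?_) (IntermediateField.adjoin.mono _ _ _ ?_)
  · have hsub : GK ⊆ KB := IntermediateField.subset_adjoin ℚ GK
    rintro w ⟨b, hb, rfl | rfl | rfl | rfl | ⟨k, rfl | rfl | rfl⟩⟩
    · exact hsub (Or.inl (Or.inl hb))
    · exact hsub (Or.inl (Or.inr ⟨b, hb, rfl⟩))
    · exact hsub (Or.inr ⟨b, hb, Or.inl rfl⟩)
    · exact hsub (Or.inr ⟨b, hb, Or.inr (Or.inl rfl)⟩)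
    · rcases k with _ | k
      · rw [A_zero]
        exact KB.sub_mem (hsub (Or.inr ⟨b, hb, Or.inl rfl⟩)) KB.one_mem
      · exact hsub (Or.inr ⟨b, hb, Or.inr (Or.inr ⟨k, Or.inl rfl⟩)⟩)
    · exact hsub (Or.inr ⟨b, hb, Or.inr (Or.inr ⟨k, Or.inr (Or.inl rfl)⟩)⟩)
    · exact hsub (Or.inr ⟨b, hb, Or.inr (Or.inr ⟨k, Or.inr (Or.inr rfl)⟩)⟩)
  · rintro w ((hw | ⟨b, hb, rfl⟩) | ⟨b, hb, rfl | rfl | ⟨k, rfl | rfl | rfl⟩⟩)
    · exact ⟨w, hw, Or.inl rfl⟩
    · exact ⟨b, hb, Or.inr (Or.inl rfl)⟩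
    · exact ⟨b, hb, Or.inr (Or.inr (Or.inl rfl))⟩
    · exact ⟨b, hb, Or.inr (Or.inr (Or.inr (Or.inl rfl)))⟩
    · exact ⟨b, hb, Or.inr (Or.inr (Or.inr (Or.inr ⟨k + 1, Or.inl rfl⟩)))⟩
    · exact ⟨b, hb, Or.inr (Or.inr (Or.inr (Or.inr ⟨k, Or.inr (Or.inl rfl)⟩)))⟩
    · exact ⟨b, hb, Or.inr (Or.inr (Or.inr (Or.inr ⟨k, Or.inr (Or.inr rfl)⟩)))⟩

theorem algebraicOver_iff (w : ℂ) : AlgebraicOver w ↔ IsAlgebraic KB w := by
  rw [AlgebraicOver, baseField_eq]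

theorem algebraicOverAnd_iff {τ : Type} (y : τ → ℂ) (w : ℂ) : AlgebraicOverAnd y w ↔ w ∈ clf KB (range y) := by
  rw [AlgebraicOverAnd, baseField_eq, mem_clf]

/-- the names as names of the counting theorem -/
noncomputable def dec {Q : Set ℕ} {Z X : Set ℂ} {L : ℕ} {P : Set ℝ} : Iq Q Z X L P → Name :=
  Sum.elim (fun p => .bessel p.1.1 p.1.2) (Sum.elim (fun p => .mean p.1.1 p.1.2) fun p => .gompertz p.1.1 p.1.2)

theorem value_dec {Q : Set ℕ} {Z X : Set ℂ} {L : ℕ} {P : Set ℝ} (i : Iq Q Z X L P) : value (dec i) = tq i := by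
  rcases i with z | p | p <;> rfl

theorem dec_surj {Q : Set ℕ} {Z X : Set ℂ} {L : ℕ} {P : Set ℝ} {i : Name} (h : i ∈ names Q Z X L P) :
    ∃ j : Iq Q Z X L P, dec j = i := by
  rcases h with ⟨k, hk, z, hz, rfl⟩ | ⟨k, hk, x, hx, rfl⟩ | ⟨l, x, h1, h2, hx, rfl⟩
  · exact ⟨Sum.inl ⟨(k, z), hk, hz⟩, rfl⟩
  · exact ⟨Sum.inr (Sum.inl ⟨(k, x), hk, hx⟩), rfl⟩
  · exact ⟨Sum.inr (Sum.inr ⟨(l, x), h1, h2, hx⟩), rfl⟩

theorem pts {Z : Set ℂ} (hZ : DifferentSquares Z) : Pts Z :=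
  ⟨fun z hz => ⟨(hZ z hz).1, (hZ z hz).2.1⟩, fun z hz w hw h => (hZ z hz).2.2 w hw h⟩

/-- `I_0` has no algebraic zeros -/
theorem I0_ne_zero {z : ℂ} (hz : IsAlgebraic ℚ z) : I0 z ≠ 0 := I0_ne hz

/-- the mean is `ζ(k) - V_k(z) / I_0(z)` -/
theorem R_eq_sub {k : ℕ} (hk : 2 ≤ k) {z : ℂ} (hz : I0 z ≠ 0) : R k z = riemannZeta k - V k z / I0 z := R_split hk hz

section

variable {τ : Type} [Fintype τ] {L : ℕ} {y : τ → ℂ} {Q : Set ℕ} {P : Set ℝ} {X Z : Set ℂ}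

theorem count (hQ : ∀ k ∈ Q, 2 ≤ k ∧ AlgebraicOverAnd y (riemannZeta k)) (hLQ : ∀ k, 2 ≤ k → k ≤ L → k ∈ Q)
    (hP : ∀ x ∈ P, 0 < x ∧ IsAlgebraic ℚ x ∧ AlgebraicOverAnd y (Real.eulerMascheroniConstant + Real.log x))
    (hX : NoOpposite X) (hZ : DifferentSquares Z) :
    (algebraicOnes y (names Q Z X L P)).encard ≤ (Fintype.card τ : ℕ∞) := by
  have h := count_q (L := L) (P := P) (X := X) (Z := Z) (Q := Q) (y := y) (fun k hk => (hQ k hk).1) hLQ hX (pts hZ)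
    (fun x hx => ⟨(hP x hx).1, (hP x hx).2.1⟩) (fun k hk => (algebraicOverAnd_iff y _).1 (hQ k hk).2) (fun x hx => by
      have := (algebraicOverAnd_iff y _).1 (hP x hx).2.2
      push_cast
      exact this)
  refine le_trans ?_ h
  refine le_trans (encard_le_encard ?_) (encard_image_le (Sum.map id (dec (Q := Q) (Z := Z) (X := X) (L := L) (P := P))) _)
  rintro (j | i) hi
  · exact ⟨Sum.inl j, (algebraicOver_iff _).1 hi, rfl⟩
  · obtain ⟨h1, h2⟩ := hi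
    obtain ⟨i', rfl⟩ := dec_surj h1
    refine ⟨Sum.inr i', ?_, rfl⟩
    show IsAlgebraic KB (tq i')
    rw [← value_dec]
    exact (algebraicOver_iff _).1 h2

theorem degree (hQ : ∀ k ∈ Q, 2 ≤ k ∧ AlgebraicOverAnd y (riemannZeta k)) (hLQ : ∀ k, 2 ≤ k → k ≤ L → k ∈ Q)
    (hP : ∀ x ∈ P, 0 < x ∧ IsAlgebraic ℚ x ∧ AlgebraicOverAnd y (Real.eulerMascheroniConstant + Real.log x))
    (hX : NoOpposite X) (hZ : DifferentSquares Z)
    (S : Finset Name) (hS : (S : Set Name) ⊆ names Q Z X L P) :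
    (S.card : Cardinal) ≤ Algebra.trdeg baseField (IntermediateField.adjoin baseField (range y ∪ value '' (S : Set Name))) := by
  classical
  choose f hf using fun i : S => dec_surj (hS i.2)
  have hfi : Function.Injective f := by
    intro i j hij
    apply Subtype.ext
    rw [← hf i, ← hf j, hij]
  have h := trdeg_q (L := L) (P := P) (X := X) (Z := Z) (Q := Q) (y := y) (fun k hk => (hQ k hk).1) hLQ hX (pts hZ)
    (fun x hx => ⟨(hP x hx).1, (hP x hx).2.1⟩) (fun k hk => (algebraicOverAnd_iff y _).1 (hQ k hk).2) (fun x hx => by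
      have := (algebraicOverAnd_iff y _).1 (hP x hx).2.2
      push_cast
      exact this) (Finset.univ.map ⟨f, hfi⟩)
  rw [Finset.card_map, Finset.card_univ, Fintype.card_coe] at h
  have e : tq '' ((Finset.univ.map ⟨f, hfi⟩ : Finset (Iq Q Z X L P)) : Set (Iq Q Z X L P)) =
      value '' (S : Set Name) := by
    ext z
    constructor
    · rintro ⟨i, hi, rfl⟩
      simp only [Finset.coe_map, Finset.coe_univ, image_univ, mem_range, Function.Embedding.coeFn_mk] at hi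
      obtain ⟨j, rfl⟩ := hi
      refine ⟨j, j.2, ?_⟩
      rw [← value_dec, hf]
    · rintro ⟨i, hi, rfl⟩
      refine ⟨f ⟨i, hi⟩, ?_, ?_⟩
      · simp
      · rw [← value_dec, hf]
  rw [e] at h
  rw [baseField_eq]
  exact h

end

theorem group_alg {m : ℕ} {b : Fin m → ℝ} (hb : ∀ i, 0 < b i ∧ IsAlgebraic ℚ (b i)) {x : ℝ} (hx : x ∈ group b) :
    IsAlgebraic ℚ x := by
  obtain ⟨h0, n, hn, e, he⟩ := hx
  refine IsAlgebraic.of_pow (n := n) (by omega) ?_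
  rw [he]
  have h1 : ∀ z : ℝ, IsAlgebraic ℚ z ↔ z ∈ algebraicClosure ℚ ℝ := fun z => by
    rw [mem_algebraicClosure_iff]
  rw [h1]
  exact prod_mem fun i _ => zpow_mem ((h1 _).1 (hb i).2) _

theorem group_log {m c : ℕ} {b : Fin m → ℝ} (hb : ∀ i, 0 < b i ∧ IsAlgebraic ℚ (b i)) {x : ℝ} (hx : x ∈ group b) :
    AlgebraicOverAnd (constants c b) (Real.eulerMascheroniConstant + Real.log x) := by
  obtain ⟨h0, n, hn, e, he⟩ := hx
  have h1 : (n : ℝ) * Real.log x = ∑ i, (e i : ℝ) * Real.log (b i) := by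
    rw [← Real.log_pow, he, Real.log_prod]
    · refine Finset.sum_congr rfl fun i _ => ?_
      rw [Real.log_zpow]
    · intro i _
      exact zpow_ne_zero _ (hb i).1.ne'
  have hn0 : (n : ℝ) ≠ 0 := by
    have : n ≠ 0 := by omega
    exact_mod_cast this
  have h2 : Real.log x = (∑ i, (e i : ℝ) * Real.log (b i)) / n := by
    rw [← h1]
    field_simp
  rw [algebraicOverAnd_iff, h2]
  have h3 : ∀ i, constants c b i ∈ clf KB (range (constants c b)) := fun i => subset_clf _ ⟨i, rfl⟩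
  push_cast
  refine (clf KB _).add_mem (h3 (Sum.inl 2)) ((clf KB _).div_mem ((clf KB _).sum_mem fun i _ => (clf KB _).mul_mem ?_ ?_) ?_)
  · exact intCast_mem (clf KB _) _
  · exact h3 (Sum.inr (Sum.inr i))
  · exact natCast_mem (clf KB _) _

theorem result :
    -- (1)
    (∀ X Z : Set ℂ, NoOpposite X → DifferentSquares Z → AlgebraicIndependent baseField (Sum.elim
      (fun p : {p : ℕ × ℂ // 2 ≤ p.1 ∧ p.2 ∈ Z} => riemannZeta p.1.1 - R p.1.1 p.1.2)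
      (fun p : {p : ℕ × ℂ // 2 ≤ p.1 ∧ p.2 ∈ X} => riemannZeta p.1.1 - T p.1.1 p.1.2))) ∧
    -- (2)
    (∀ (L r : ℕ) (y : Fin r → ℂ) (Q : Set ℕ) (P : Set ℝ) (X Z : Set ℂ),
      (∀ k ∈ Q, 2 ≤ k ∧ AlgebraicOverAnd y (riemannZeta k)) → (∀ k, 2 ≤ k → k ≤ L → k ∈ Q) →
      (∀ x ∈ P, 0 < x ∧ IsAlgebraic ℚ x ∧ AlgebraicOverAnd y (Real.eulerMascheroniConstant + Real.log x)) →
      NoOpposite X → DifferentSquares Z →
      (∀ S : Finset Name, (S : Set Name) ⊆ names Q Z X L P → (S.card : Cardinal) ≤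
        Algebra.trdeg baseField (IntermediateField.adjoin baseField (range y ∪ value '' (S : Set Name)))) ∧
      (algebraicOnes y (names Q Z X L P)).encard ≤ (r : ℕ∞)) ∧
    -- (3)
    (∀ (c : ℕ) (X Z : Set ℂ), NoOpposite X → DifferentSquares Z →
      (algebraicOnes (zetas c) (names (exponents c) Z X 0 ∅)).encard ≤ ((c + 2 : ℕ) : ℕ∞)) ∧
    -- (4)
    (∀ (c m : ℕ) (b : Fin m → ℝ) (X Z : Set ℂ), (∀ i, 0 < b i ∧ IsAlgebraic ℚ (b i)) →
      NoOpposite X → DifferentSquares Z →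
      (algebraicOnes (constants c b) (names (exponents c) Z X (2 * c + 4) (group b))).encard ≤ ((m + c + 3 : ℕ) : ℕ∞)) := by
  refine ⟨fun X Z hX hZ => ?_, fun L r y Q P X Z hQ hLQ hP hX hZ => ⟨fun S hS => degree hQ hLQ hP hX hZ S hS, ?_⟩,
    fun c X Z hX hZ => ?_, fun c m b X Z hb hX hZ => ?_⟩
  · have h := (ai_sq (Q := {k | 2 ≤ k}) (Z := Z) (X := X) (L := 0) (P := ∅) (fun k hk => hk) hX (pts hZ) (by simp)).comp
      (Sum.map id Sum.inl) (Function.Injective.sumMap Function.injective_id Sum.inl_injective)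
    rw [baseField_eq]
    have e : (Sum.elim (fun p : {p : ℕ × ℂ // 2 ≤ p.1 ∧ p.2 ∈ Z} => riemannZeta p.1.1 - R p.1.1 p.1.2)
        (fun p : {p : ℕ × ℂ // 2 ≤ p.1 ∧ p.2 ∈ X} => riemannZeta p.1.1 - T p.1.1 p.1.2)) =
        sq (Q := {k | 2 ≤ k}) (Z := Z) (X := X) (L := 0) (P := ∅) ∘ Sum.map id Sum.inl := by
      ext (p | p)
      · show riemannZeta p.1.1 - R p.1.1 p.1.2 = Vv p.1.1 p.1.2 / Pool.Agent.H18.Bes.I0 p.1.2
        rw [R_eq, R_split p.2.1 (I0_ne (hZ _ p.2.2).1)]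
        ring
      · show riemannZeta p.1.1 - T p.1.1 p.1.2 = PS p.1.1 p.1.2
        rw [T_eq, zeta_split p.2.1 p.1.2]
        ring
    rw [e]
    exact h
  · have h := count hQ hLQ hP hX hZ
    rwa [Fintype.card_fin] at h
  · have h3 : ∀ i, zetas c i ∈ clf KB (range (zetas c)) := fun i => subset_clf _ ⟨i, rfl⟩
    have h := count (τ := Fin 2 ⊕ Fin c) (L := 0) (y := zetas c) (Q := exponents c) (P := ∅) (X := X) (Z := Z)
      (fun k hk => ⟨hk.1, (algebraicOverAnd_iff _ _).2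
        (mem_zeta' (h3 (Sum.inl 0)) (h3 (Sum.inl 1)) (fun i => h3 (Sum.inr i)) k hk.1 hk.2)⟩)
      (fun k h2 hk => by omega) (by simp) hX hZ
    refine h.trans_eq ?_
    simp only [Fintype.card_sum, Fintype.card_fin]
    congr 1
    ring
  · have h3 : ∀ i, constants c b i ∈ clf KB (range (constants c b)) := fun i => subset_clf _ ⟨i, rfl⟩
    have h := count (τ := Fin 3 ⊕ (Fin c ⊕ Fin m)) (L := 2 * c + 4) (y := constants c b) (Q := exponents c)
      (P := group b) (X := X) (Z := Z)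
      (fun k hk => ⟨hk.1, (algebraicOverAnd_iff _ _).2
        (mem_zeta' (h3 (Sum.inl 0)) (h3 (Sum.inl 1)) (fun i => h3 (Sum.inr (Sum.inl i))) k hk.1 hk.2)⟩)
      (fun k h2 hk => ⟨h2, by
        rcases Nat.lt_or_ge k (2 * c + 4) with h | h
        · exact Or.inr (by omega)
        · exact Or.inl (by rw [show k = 2 * (c + 2) by omega]; exact even_two_mul _)⟩)
      (fun x hx => ⟨hx.1, group_alg hb hx, group_log hb hx⟩) hX hZ
    refine h.trans_eq ?_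
    simp only [Fintype.card_sum, Fintype.card_fin]
    congr 1
    ring

end Pool.Agent.Results.MP_e48a95_nt.BesselMeansOfZetaTails
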