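import Mathlib
import Pool.Agent.H18.Bes.Fin

set_option autoImplicit false

/-!
# `ζ(3)`, `ζ(3) / π³`, Euler's constant and the Bessel function `K_0` at algebraic points

Let `𝓑` be the field generated by all numbers `b`, `exp b`, `I_0(b)`, `I_1(b)`, where `b` is algebraic and `I_0`, `I_1` are
the modified Bessel functions. For `re z ≥ 0`, `z ≠ 0`, let
`K_0(z) = lim ∫_0^∞ exp (-(z + ε) cosh t) dt` (`ε → 0+`); for `re z > 0` this is `∫_0^∞ exp (-z cosh t) dt`, and for `x > 0`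
`K_0(-ix) = (π i / 2) (J_0(x) + i Y_0(x))`. For integers `l ≥ 1`, `k ≥ 2`, for positive real `x` and for complex `z` let
`δ_l(x) = ∫_0^∞ log (1 + s / x)^l exp (-s) ds` (`δ_1(1)` is Gompertz's constant) and
`T_k(z) = exp (-z) * ∑_j z^j/j! * ∑_{n > j} 1/n^k` (the Poisson mean of the tails of `ζ(k)`).

Let `L ≥ 0`, let `y_1, …, y_r` be complex numbers, `P` a set of positive algebraic numbers, `X` a set of algebraic numbers
such that `x + x' ≠ 0` for all `x, x'` in `X`, let `Z` be a set of algebraic numbers `z ≠ 0`, `re z ≥ 0`, with different squares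
(for instance the set of all algebraic numbers with positive real part) and `u` a complex valued function.
Suppose that the numbers `ζ(k)` (`2 ≤ k ≤ L`), `γ + log x` (`x ∈ P`) and `γ + log (z / 2) - u(z)` (`z ∈ Z`) are algebraic over
`𝓑(y_1, …, y_r)`.

(1) For every `n`, the field generated over `𝓑` by `y_1, …, y_r` and any `n` of the numbers
`δ_l(x)` (`1 ≤ l ≤ L`, `x ∈ P`), `T_k(x)` (`2 ≤ k ≤ L`, `x ∈ X`), `K_0(z) / I_0(z) + u(z)` (`z ∈ Z`)
has transcendence degree at least `n` over `𝓑`, and at most `r` of all these numbers and `y_1, …, y_r` are algebraic over `𝓑`.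

For instance (`L = 1`, `r = 1`, `y_1 = γ`): at most one of the numbers `γ`, `δ_1(1)`, `K_0(z) / I_0(z) + log (z / 2)`, `z ∈ Z`, is
algebraic over `𝓑`, and `n` of the latter generate a field of transcendence degree at least `n - 1`, and `n` if `γ` is
algebraic over `𝓑`. With `r = 0` and `u(z) = γ + log (z / 2)` the numbers `γ + log (z / 2) + K_0(z) / I_0(z)`, `z ∈ Z`, are
algebraically independent over `𝓑`.

(2) Let `b_1, …, b_m` be positive algebraic numbers and `G` the set of the positive numbers of which a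
power with exponent `≥ 1` is in the group generated by `b_1, …, b_m`. Let `u(z) = log (z / 2)`, or `z / 2 ∈ G` and `u(z) = 0`, for every
`z ∈ Z`. For every `c ≥ 0` at most `m + c + 3` of the numbers
`ζ(3), ζ(3) / π³, γ, ζ(5), ζ(7), …, ζ(2c + 3), log b_1, …, log b_m`, `δ_l(x)` (`1 ≤ l ≤ 2c + 4`, `x ∈ G`),
`T_k(x)` (`2 ≤ k ≤ 2c + 4`, `x ∈ X`) and `K_0(z) / I_0(z) + u(z)` (`z ∈ Z`) are algebraic over `𝓑`.

Numbers of different names are counted separately. The proof shows that the functions `I_0(a x)`, `I_0'(a x)`, `K_0(a x) + log x I_0(a x)` (`a` in a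
finite set of numbers with different squares) are algebraically independent over every field obtained from `ℂ(x)` by adjoining
exponentials of functions and primitives (by the Riccati equations), and applies the method of Siegel and Shidlovskii.
-/

namespace Pool.Agent.Results.MP_e48a95_nt.EulerConstantAndBessel

open Set Filter Topology MeasureTheory

/-- `I_0(z)` -/
noncomputable def besselI₀ (z : ℂ) : ℂ := ∑' k : ℕ, (z ^ 2 / 4) ^ k / (k.factorial : ℂ) ^ 2

/-- `I_1(z)` -/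
noncomputable def besselI₁ (z : ℂ) : ℂ :=
  z / 2 * ∑' k : ℕ, (z ^ 2 / 4) ^ k / ((k.factorial : ℂ) * ((k + 1).factorial : ℂ))

/-- `K_0(z)` for `re z ≥ 0`, `z ≠ 0`, the limit of `∫_0^∞ exp (-(z + ε) cosh t) dt` for `ε → 0+` -/
noncomputable def besselK₀ (z : ℂ) : ℂ := limUnder (𝓝[>] (0 : ℝ)) fun ε : ℝ =>
  ∫ t in Ioi (0 : ℝ), Complex.exp (-(z + ε) * Real.cosh t)

/-- `δ_l(x) = ∫_0^∞ log (1 + s / x)^l e^(-s) ds` -/
noncomputable def delta (l : ℕ) (x : ℝ) : ℝ := ∫ s in Ioi (0 : ℝ), Real.log (1 + s / x) ^ l * Real.exp (-s)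

/-- `T_k(z)` -/
noncomputable def T (k : ℕ) (z : ℂ) : ℂ :=
  Complex.exp (-z) * ∑' j : ℕ, z ^ j / j.factorial * ∑' i : ℕ, 1 / ((i : ℂ) + j + 1) ^ k

/-- the field `𝓑` -/
noncomputable def baseField : IntermediateField ℚ ℂ := IntermediateField.adjoin ℚ
  {w | ∃ b : ℂ, IsAlgebraic ℚ b ∧ (w = b ∨ w = Complex.exp b ∨ w = besselI₀ b ∨ w = besselI₁ b)}

/-- `w` is algebraic over `𝓑` -/
def AlgebraicOver (w : ℂ) : Prop := IsAlgebraic baseField w

/-- `w` is algebraic over the field generated by `𝓑` and the numbers `y_j` -/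
def AlgebraicOverAnd {τ : Type} (y : τ → ℂ) (w : ℂ) : Prop :=
  IsAlgebraic (IntermediateField.adjoin baseField (range y)) w

/-- the names of the numbers -/
inductive Name : Type
  /-- `δ_l(x)` -/
  | gompertz (l : ℕ) (x : ℝ) : Name
  /-- `T_k(x)` -/
  | mean (k : ℕ) (x : ℂ) : Name
  /-- `K_0(z) / I_0(z) + u(z)` -/
  | bessel (z : ℂ) : Name

/-- the numbers -/
noncomputable def value (u : ℂ → ℂ) : Name → ℂ
  | .gompertz l x => (delta l x : ℂ)
  | .mean k x => T k x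
  | .bessel z => besselK₀ z / besselI₀ z + u z

/-- the names of the numbers `δ_l(x)` (`1 ≤ l ≤ L`, `x ∈ P`), `T_k(x)` (`2 ≤ k ≤ L`, `x ∈ X`), `K_0(z) / I_0(z) + u(z)` (`z ∈ Z`) -/
def names (L : ℕ) (P : Set ℝ) (X Z : Set ℂ) : Set Name :=
  {n | (∃ l x, 1 ≤ l ∧ l ≤ L ∧ x ∈ P ∧ n = .gompertz l x) ∨ (∃ k x, 2 ≤ k ∧ k ≤ L ∧ x ∈ X ∧ n = .mean k x) ∨
    ∃ z ∈ Z, n = .bessel z}

/-- the indices `j` for which `y_j` is algebraic over `𝓑`, and the names in `S` of the numbers which are algebraic over `𝓑` -/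
def algebraicOnes {τ : Type} (y : τ → ℂ) (u : ℂ → ℂ) (S : Set Name) : Set (τ ⊕ Name) :=
  {n | Sum.elim (fun j => AlgebraicOver (y j)) (fun i => i ∈ S ∧ AlgebraicOver (value u i)) n}

/-- algebraic numbers `x` such that `x + x' ≠ 0` for all `x, x'` in the set -/
def NoOpposite (X : Set ℂ) : Prop := ∀ x ∈ X, IsAlgebraic ℚ x ∧ ∀ x' ∈ X, x + x' ≠ 0

/-- algebraic numbers `z ≠ 0`, `re z ≥ 0`, with different squares -/
def DifferentSquares (Z : Set ℂ) : Prop :=
  ∀ z ∈ Z, IsAlgebraic ℚ z ∧ z ≠ 0 ∧ 0 ≤ z.re ∧ ∀ z' ∈ Z, z ^ 2 = z' ^ 2 → z = z'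

/-- the positive numbers of which a power with exponent `≥ 1` is in the group generated by `b_1, …, b_m` -/
def group {m : ℕ} (b : Fin m → ℝ) : Set ℝ := {x | 0 < x ∧ ∃ n : ℕ, 1 ≤ n ∧ ∃ e : Fin m → ℤ, x ^ n = ∏ i, b i ^ e i}

/-- the numbers `ζ(3), ζ(3) / π³, γ`, `ζ(5), ζ(7), …, ζ(2c + 3)`, `log b_1, …, log b_m` -/
noncomputable def constants (c : ℕ) {m : ℕ} (b : Fin m → ℝ) : Fin 3 ⊕ (Fin c ⊕ Fin m) → ℂ :=
  Sum.elim ![riemannZeta 3, riemannZeta 3 / (Real.pi : ℂ) ^ 3, (Real.eulerMascheroniConstant : ℂ)]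
    (Sum.elim (fun i => riemannZeta ((2 * i + 5 : ℕ) : ℂ)) fun i => (Real.log (b i) : ℂ))

open Pool.Agent.N902.EW Pool.Agent.H18.Bes

theorem baseField_eq : baseField = BB := by
  rw [baseField, BB]
  congr 1
  ext w
  constructor
  · rintro ⟨b, hb, rfl | rfl | rfl | rfl⟩
    · exact Or.inl (Or.inl hb)
    · exact Or.inl (Or.inr ⟨b, hb, rfl⟩)
    · exact Or.inr ⟨b, hb, Or.inl rfl⟩
    · exact Or.inr ⟨b, hb, Or.inr rfl⟩
  · rintro ((hw | ⟨b, hb, rfl⟩) | ⟨b, hb, rfl | rfl⟩)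
    · exact ⟨w, hw, Or.inl rfl⟩
    · exact ⟨b, hb, Or.inr (Or.inl rfl)⟩
    · exact ⟨b, hb, Or.inr (Or.inr (Or.inl rfl))⟩
    · exact ⟨b, hb, Or.inr (Or.inr (Or.inr rfl))⟩

theorem algebraicOver_iff (w : ℂ) : AlgebraicOver w ↔ IsAlgebraic BB w := by
  rw [AlgebraicOver, baseField_eq]

theorem algebraicOverAnd_iff {τ : Type} (y : τ → ℂ) (w : ℂ) : AlgebraicOverAnd y w ↔ w ∈ clf BB (range y) := by
  rw [AlgebraicOverAnd, baseField_eq, mem_clf]

theorem besselK₀_eq (z : ℂ) : besselK₀ z = K0 z := rfl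

/-- the limit exists -/
theorem besselK₀_tendsto {z : ℂ} (hz : 0 ≤ z.re) (h0 : z ≠ 0) :
    Tendsto (fun ε : ℝ => ∫ t in Ioi (0 : ℝ), Complex.exp (-(z + ε) * Real.cosh t)) (𝓝[>] 0) (𝓝 (besselK₀ z)) := by
  have h1 : (fun ε : ℝ => ∫ t in Ioi (0 : ℝ), Complex.exp (-(z + ε) * Real.cosh t)) = fun ε : ℝ => kn 0 (z + ε) := by
    funext ε
    rw [kn]
    refine integral_congr_ae (Eventually.of_forall fun t => ?_)
    show _ = kf 0 (z + ε) t
    rw [kf, pow_zero, one_mul]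
  rw [h1, besselK₀_eq, K0_eq hz h0]
  exact kn_tendsto hz h0

/-- on the right half plane the limit is the integral -/
theorem besselK₀_eq_integral {z : ℂ} (hz : 0 < z.re) : besselK₀ z = ∫ t in Ioi (0 : ℝ), Complex.exp (-z * Real.cosh t) := by
  have h0 : z ≠ 0 := by rintro rfl; simp at hz
  rw [besselK₀_eq, K0_eq hz.le h0, ← kn_eq hz, kn]
  refine integral_congr_ae (Eventually.of_forall fun t => ?_)
  show kf 0 z t = _
  rw [kf, pow_zero, one_mul]

/-- the names as names of the counting theorem -/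
noncomputable def dec {L : ℕ} {P : Set ℝ} {X Z : Set ℂ} : {z // z ∈ Z} ⊕ Ix L P X → Name :=
  Sum.elim (fun z => .bessel z) (Sum.elim (fun p => .mean p.1.1 p.1.2) fun p => .gompertz p.1.1 p.1.2)

/-- the numbers `K_0(z) / I_0(z) + u(z)` -/
noncomputable def kb (u : ℂ → ℂ) (z : ℂ) : ℂ := besselK₀ z / besselI₀ z + u z

theorem value_dec {L : ℕ} {P : Set ℝ} {X Z : Set ℂ} (u : ℂ → ℂ) (i : {z // z ∈ Z} ⊕ Ix L P X) :
    value u (dec i) = Sum.elim (fun z : {z // z ∈ Z} => kb u z) nu i := by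
  rcases i with z | p | p <;> rfl

theorem dec_surj {L : ℕ} {P : Set ℝ} {X Z : Set ℂ} {i : Name} (h : i ∈ names L P X Z) :
    ∃ j : {z // z ∈ Z} ⊕ Ix L P X, dec j = i := by
  rcases h with ⟨l, x, h1, h2, hx, rfl⟩ | ⟨k, x, h1, h2, hx, rfl⟩ | ⟨z, hz, rfl⟩
  · exact ⟨Sum.inr (Sum.inr ⟨(l, x), h1, h2, hx⟩), rfl⟩
  · exact ⟨Sum.inr (Sum.inl ⟨(k, x), h1, h2, hx⟩), rfl⟩
  · exact ⟨Sum.inl ⟨z, hz⟩, rfl⟩

theorem pts {Z : Set ℂ} (hZ : DifferentSquares Z) : Pts Z :=
  ⟨fun z hz => ⟨(hZ z hz).1, (hZ z hz).2.1⟩, fun z hz w hw h => (hZ z hz).2.2.2 w hw h⟩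

theorem ka_kb {Z : Set ℂ} (hZ : DifferentSquares Z) (u : ℂ → ℂ) {z : ℂ} (hz : z ∈ Z) :
    ka z - kb u z = Real.eulerMascheroniConstant + Complex.log (z / 2) - u z := by
  rw [ka_eq (hZ z hz).2.2.1 (hZ z hz).2.1 (hZ z hz).1, kb, besselK₀_eq]
  show _ / I0 z + _ - (K0 z / I0 z + u z) = _
  ring

section

variable {τ : Type} [Fintype τ] {L : ℕ} {y : τ → ℂ} {P : Set ℝ} {X Z : Set ℂ} {u : ℂ → ℂ}

theorem count (hP : ∀ x ∈ P, 0 < x ∧ IsAlgebraic ℚ x ∧ AlgebraicOverAnd y (Real.eulerMascheroniConstant + Real.log x))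
    (hX : NoOpposite X) (hZ : DifferentSquares Z)
    (hu : ∀ z ∈ Z, AlgebraicOverAnd y (Real.eulerMascheroniConstant + Complex.log (z / 2) - u z))
    (hL : ∀ k : ℕ, 2 ≤ k → k ≤ L → AlgebraicOverAnd y (riemannZeta k)) :
    (algebraicOnes y u (names L P X Z)).encard ≤ (Fintype.card τ : ℕ∞) := by
  have h := count_B' L P (fun x hx => ⟨(hP x hx).1, (hP x hx).2.1⟩) X hX (pts hZ) (kb u) y
    (fun k h2 hk => (algebraicOverAnd_iff y _).1 (hL k h2 hk)) (fun x hx => by
      have := (algebraicOverAnd_iff y _).1 (hP x hx).2.2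
      push_cast
      exact this) (fun z hz => by
      rw [ka_kb hZ u hz]
      exact (algebraicOverAnd_iff y _).1 (hu z hz))
  refine le_trans ?_ h
  refine le_trans (encard_le_encard ?_) (encard_image_le (Sum.map id (dec (L := L) (P := P) (X := X) (Z := Z))) _)
  rintro (j | i) hi
  · exact ⟨Sum.inl j, (algebraicOver_iff _).1 hi, rfl⟩
  · obtain ⟨h1, h2⟩ := hi
    obtain ⟨i', rfl⟩ := dec_surj h1
    refine ⟨Sum.inr i', ?_, rfl⟩
    show IsAlgebraic BB (Sum.elim (fun z : {z // z ∈ Z} => kb u z) nu i')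
    rw [← value_dec]
    exact (algebraicOver_iff _).1 h2

theorem degree (hP : ∀ x ∈ P, 0 < x ∧ IsAlgebraic ℚ x ∧ AlgebraicOverAnd y (Real.eulerMascheroniConstant + Real.log x))
    (hX : NoOpposite X) (hZ : DifferentSquares Z)
    (hu : ∀ z ∈ Z, AlgebraicOverAnd y (Real.eulerMascheroniConstant + Complex.log (z / 2) - u z))
    (hL : ∀ k : ℕ, 2 ≤ k → k ≤ L → AlgebraicOverAnd y (riemannZeta k))
    (A : Finset Name) (hA : (A : Set Name) ⊆ names L P X Z) :
    (A.card : Cardinal) ≤ Algebra.trdeg baseField (IntermediateField.adjoin baseField (range y ∪ value u '' (A : Set Name))) := by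
  classical
  choose f hf using fun i : A => dec_surj (hA i.2)
  have hfi : Function.Injective f := by
    intro i j hij
    apply Subtype.ext
    rw [← hf i, ← hf j, hij]
  have h := trdeg_B' L P (fun x hx => ⟨(hP x hx).1, (hP x hx).2.1⟩) X hX (pts hZ) (kb u) y
    (fun k h2 hk => (algebraicOverAnd_iff y _).1 (hL k h2 hk)) (fun x hx => by
      have := (algebraicOverAnd_iff y _).1 (hP x hx).2.2
      push_cast
      exact this) (fun z hz => by
      rw [ka_kb hZ u hz]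
      exact (algebraicOverAnd_iff y _).1 (hu z hz)) (Finset.univ.map ⟨f, hfi⟩)
  rw [Finset.card_map, Finset.card_univ, Fintype.card_coe] at h
  have e : Sum.elim (fun z : {z // z ∈ Z} => kb u z) nu ''
      ((Finset.univ.map ⟨f, hfi⟩ : Finset ({z // z ∈ Z} ⊕ Ix L P X)) : Set ({z // z ∈ Z} ⊕ Ix L P X)) =
      value u '' (A : Set Name) := by
    ext z
    constructor
    · rintro ⟨i, hi, rfl⟩
      simp only [Finset.coe_map, Finset.coe_univ, image_univ, mem_range, Function.Embedding.coeFn_mk] at hi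
      obtain ⟨j, rfl⟩ := hi
      refine ⟨j, j.2, ?_⟩
      rw [← value_dec, hf]
    · rintro ⟨i, hi, rfl⟩
      refine ⟨f ⟨i, hi⟩, ?_, ?_⟩
      · simp
      · rw [← value_dec, hf]
  rw [e] at h
  rw [baseField_eq]
  exact h

end

theorem group_alg {m : ℕ} {b : Fin m → ℝ} (hb : ∀ i, 0 < b i ∧ IsAlgebraic ℚ (b i)) {x : ℝ} (hx : x ∈ group b) :
    IsAlgebraic ℚ x := by
  obtain ⟨h0, n, hn, e, he⟩ := hx
  refine IsAlgebraic.of_pow (n := n) (by omega) ?_
  rw [he]
  have h1 : ∀ z : ℝ, IsAlgebraic ℚ z ↔ z ∈ algebraicClosure ℚ ℝ := fun z => by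
    rw [mem_algebraicClosure_iff]
  rw [h1]
  exact prod_mem fun i _ => zpow_mem ((h1 _).1 (hb i).2) _

theorem group_log {m c : ℕ} {b : Fin m → ℝ} (hb : ∀ i, 0 < b i ∧ IsAlgebraic ℚ (b i)) {x : ℝ} (hx : x ∈ group b) :
    AlgebraicOverAnd (constants c b) (Real.eulerMascheroniConstant + Real.log x) := by
  obtain ⟨h0, n, hn, e, he⟩ := hx
  have h1 : (n : ℝ) * Real.log x = ∑ i, (e i : ℝ) * Real.log (b i) := by
    rw [← Real.log_pow, he, Real.log_prod]
    · refine Finset.sum_congr rfl fun i _ => ?_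
      rw [Real.log_zpow]
    · intro i _
      exact zpow_ne_zero _ (hb i).1.ne'
  have hn0 : (n : ℝ) ≠ 0 := by
    have : n ≠ 0 := by omega
    exact_mod_cast this
  have h2 : Real.log x = (∑ i, (e i : ℝ) * Real.log (b i)) / n := by
    rw [← h1]
    field_simp
  rw [algebraicOverAnd_iff, h2]
  have h3 : ∀ i, constants c b i ∈ clf BB (range (constants c b)) := fun i => subset_clf _ ⟨i, rfl⟩
  push_cast
  refine (clf BB _).add_mem (h3 (Sum.inl 2)) ((clf BB _).div_mem ((clf BB _).sum_mem fun i _ => (clf BB _).mul_mem ?_ ?_) ?_)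
  · exact intCast_mem (clf BB _) _
  · exact h3 (Sum.inr (Sum.inr i))
  · exact natCast_mem (clf BB _) _

theorem result :
    -- (1)
    (∀ (L r : ℕ) (y : Fin r → ℂ) (P : Set ℝ) (X Z : Set ℂ) (u : ℂ → ℂ),
      (∀ x ∈ P, 0 < x ∧ IsAlgebraic ℚ x ∧ AlgebraicOverAnd y (Real.eulerMascheroniConstant + Real.log x)) →
      NoOpposite X → DifferentSquares Z →
      (∀ z ∈ Z, AlgebraicOverAnd y (Real.eulerMascheroniConstant + Complex.log (z / 2) - u z)) →
      (∀ k : ℕ, 2 ≤ k → k ≤ L → AlgebraicOverAnd y (riemannZeta k)) →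
      (∀ A : Finset Name, (A : Set Name) ⊆ names L P X Z → (A.card : Cardinal) ≤
        Algebra.trdeg baseField (IntermediateField.adjoin baseField (range y ∪ value u '' (A : Set Name)))) ∧
      (algebraicOnes y u (names L P X Z)).encard ≤ (r : ℕ∞)) ∧
    -- (2)
    (∀ (c m : ℕ) (b : Fin m → ℝ) (X Z : Set ℂ) (u : ℂ → ℂ), (∀ i, 0 < b i ∧ IsAlgebraic ℚ (b i)) →
      NoOpposite X → DifferentSquares Z →
      (∀ z ∈ Z, u z = Complex.log (z / 2) ∨ ∃ x ∈ group b, z = 2 * (x : ℂ) ∧ u z = 0) →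
      (algebraicOnes (constants c b) u (names (2 * c + 4) (group b) X Z)).encard ≤ ((m + c + 3 : ℕ) : ℕ∞)) := by
  refine ⟨fun L r y P X Z u hP hX hZ hu hL => ⟨fun A hA => degree hP hX hZ hu hL A hA, ?_⟩,
    fun c m b X Z u hb hX hZ hu => ?_⟩
  · have h := count hP hX hZ hu hL
    rwa [Fintype.card_fin] at h
  · have h3 : ∀ i, constants c b i ∈ clf BB (range (constants c b)) := fun i => subset_clf _ ⟨i, rfl⟩
    have h := count (τ := Fin 3 ⊕ (Fin c ⊕ Fin m)) (L := 2 * c + 4) (y := constants c b) (P := group b) (X := X) (Z := Z) (u := u)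
      (fun x hx => ⟨hx.1, group_alg hb hx, group_log hb hx⟩) hX hZ (fun z hz => by
        rcases hu z hz with h1 | ⟨x, hx, rfl, h1⟩
        · rw [h1, algebraicOverAnd_iff]
          have e : (Real.eulerMascheroniConstant : ℂ) + Complex.log (z / 2) - Complex.log (z / 2) =
            Real.eulerMascheroniConstant := by ring
          rw [e]
          exact h3 (Sum.inl 2)
        · rw [h1, sub_zero]
          have e : Complex.log (2 * (x : ℂ) / 2) = (Real.log x : ℂ) := by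
            rw [mul_div_cancel_left₀ _ two_ne_zero, Complex.ofReal_log hx.1.le]
          rw [e]
          exact group_log hb hx)
      (fun k h2 hk => (algebraicOverAnd_iff _ _).2
        (mem_T_of_zeta (h3 (Sum.inl 0)) (h3 (Sum.inl 1)) (fun i => h3 (Sum.inr (Sum.inl i))) k h2 hk))
    refine h.trans_eq ?_
    simp only [Fintype.card_sum, Fintype.card_fin]
    congr 1
    ring

end Pool.Agent.Results.MP_e48a95_nt.EulerConstantAndBessel
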