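import Mathlib
import Pool.Agent.H18.Wd.LVal

set_option autoImplicit false

/-!
# `ζ(3)`, `ζ(3) / π³`, Euler's constant and the iterated integrals of `K_0` at algebraic points

For `re z > 0` let `L_0(z) = K_0(z) = ∫_0^∞ exp(-z cosh t) dt` and `L_{k+1}(z) = ∫_1^∞ L_k(z t) dt / t`, so that
`L_k(z) = ∫_1^∞ K_0(z t) (log t)^(k-1) / (k-1)! dt / t` for `k ≥ 1` (`L_1(z)` is the Bessel integral function
`∫_z^∞ K_0(t) dt / t`). We have `L_k(z) = [s^(k+1)] exp(-s log (z / 2)) Γ(1 + s / 2)^2 +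
(-1)^(k+1) (c A_k(z) / 2^k - k A_{k+1}(z) / 2^(k+1) - C_k(z) / 2^k)`, `c = γ + log (z / 2)`, with the entire functions
`A_k(z) = ∑_{n ≥ 1} (z / 2)^(2n) / (n!^2 n^k)`, `C_k(z) = ∑_{n ≥ 1} H_n (z / 2)^(2n) / (n!^2 n^k)` (`H_n` the harmonic numbers);
the first term is a polynomial in `c`, `ζ(2), …, ζ(k + 1)` with rational coefficients.

For an integer `k ≥ 2` and a complex number `z` with `I_0(z) ≠ 0` let
`R_k(z) = I_0(z)^(-1) * ∑_j (z / 2)^(2j) / j!^2 * ∑_{n > j} 1/n^k`, the mean of the tails of `ζ(k)` with the weights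
of the Bessel function `I_0(z) = ∑_j (z / 2)^(2j) / j!^2`
(`R_k(z) = ζ(k) - V_k(z) / I_0(z)` where `V_k(z) = ∑_n H_n^(k) (z / 2)^(2n) / n!^2`, `H_n^(k) = ∑_{j ≤ n} 1/j^k`).

Let `𝓕` be the field generated by all numbers `b`, `exp b`, `I_0(b)`, `I_1(b)`, `A_k(b)` (`k ≥ 0`) and
`W_k(b) = (b / 2) (I_0(b) V_k'(b) - I_1(b) V_k(b))` (`k ≥ 2`), where `b` is algebraic.

For integers `l ≥ 1`, `k ≥ 2`, for positive real `x` and for complex `z` let
`δ_l(x) = ∫_0^∞ log (1 + s / x)^l exp (-s) ds` (`δ_1(1)` is Gompertz's constant) and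
`T_k(z) = exp (-z) * ∑_j z^j/j! * ∑_{n > j} 1/n^k` (the Poisson mean of the tails of `ζ(k)`).

Let `X` be a set of algebraic numbers such that `x + x' ≠ 0` for all `x, x'` in `X`, and `Z` a set of algebraic numbers with
positive real part.

(1) Let `y_1, …, y_r` be complex numbers, `Q` a set of integers `k ≥ 2` which contains `2, 3, …, N`, and `P` a set of positive
algebraic numbers. Suppose that the numbers `ζ(k)` (`k ∈ Q`), `γ + log x` (`x ∈ P`) and `γ + log (z / 2)` (`z ∈ Z`) are algebraic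
over `𝓕(y_1, …, y_r)`. For every `n`, the field generated over `𝓕` by `y_1, …, y_r` and any `n` of the numbers
`L_k(z)` (`z ∈ Z`, `k = 0` or `k + 1 ≤ N`), `R_k(w)` (`k ∈ Q`, `w` algebraic, `re w > 0`),
`T_k(x)` (`k ∈ Q`, `x ∈ X`), `δ_l(x)` (`1 ≤ l ≤ N`, `x ∈ P`) has transcendence degree at least `n` over `𝓕`, and at most `r` of all
these numbers and `y_1, …, y_r` are algebraic over `𝓕`.

(2) Let `b_1, …, b_m` be positive algebraic numbers and `G` the set of the positive numbers of which a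
power with exponent `≥ 1` is in the group generated by `b_1, …, b_m`, and suppose that for every `z` in `Z` a power of `z / 2` with
exponent `≥ 1` is in this group. For every `c ≥ 0` at most `m + c + 3` of the numbers
`ζ(3), ζ(3) / π³, γ, ζ(5), ζ(7), …, ζ(2c + 3), log b_1, …, log b_m`, `L_k(z)` (`0 ≤ k ≤ 2c + 3`, `z ∈ Z`), `R_k(w)`, `T_k(x)`
(`k ≥ 2` even or `k ≤ 2c + 3`, `w` algebraic with `re w > 0`, `x ∈ X`), `δ_l(x)` (`1 ≤ l ≤ 2c + 4`, `x ∈ G`) are algebraic over `𝓕`.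

For instance (`m = c = 0`) at most three of the numbers `ζ(3)`, `ζ(3) / π³`, `γ`, `K_0(2)`, `∫_2^∞ K_0(t) dt / t`,
`∫_2^∞ K_0(t) log (t / 2) dt / t`, `∫_2^∞ K_0(t) log (t / 2)² dt / t` are algebraic over `𝓕`.

Numbers of different names are counted separately. The proof: let `f(x) = I_0(a x)`. The iterated integrals (with respect to `dx / x`)
of words in the letters `f`, `f^2`, `f^(-2)` for a finite set of numbers `a` with different squares are linearly independent over the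
field generated by `f`, `f'` and all iterated integrals of exponential polynomials. The functions `A_k`, `C_k`, `W_k`, `V_k` are, up
to factors `f`, linear combinations of such integrals (by variation of constants), and their algebraic independence
(without the `W_k` for odd `k`, which are polynomials in the `A_j`) follows with derivations of the shuffle algebra.
The values are then independent by the method of Siegel and Shidlovskii. The formula for `L_k` follows from the differential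
equation and the representation of `K_0(x)`, `x > 0`, as the mean of the positive part of `log (2 √(t y) / x)` for independent
exponentially distributed `t` and `y`.
-/

namespace Pool.Agent.Results.MP_e48a95_nt.IteratedIntegralsOfBesselK

open Set Filter Topology MeasureTheory

/-- `H_n^(k) = ∑_{j ≤ n} 1/j^k` -/
noncomputable def harmonic (k n : ℕ) : ℂ := ∑ j ∈ Finset.range n, 1 / ((j : ℂ) + 1) ^ k

/-- `I_0(z)` -/
noncomputable def I0 (z : ℂ) : ℂ := ∑' n : ℕ, (z ^ 2 / 4) ^ n / (n.factorial : ℂ) ^ 2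

/-- `I_1(z)` -/
noncomputable def I1 (z : ℂ) : ℂ := z / 2 * ∑' n : ℕ, (z ^ 2 / 4) ^ n / ((n.factorial : ℂ) * ((n + 1).factorial : ℂ))

/-- `A_k(z) = ∑_{n ≥ 1} (z / 2)^(2n) / (n!^2 n^k)` -/
noncomputable def A (k : ℕ) (z : ℂ) : ℂ :=
  ∑' n : ℕ, (z ^ 2 / 4) ^ (n + 1) / (((n + 1).factorial : ℂ) ^ 2 * ((n : ℂ) + 1) ^ k)

/-- `V_k(z) = ∑_n H_n^(k) (z / 2)^(2n) / n!^2` -/
noncomputable def V (k : ℕ) (z : ℂ) : ℂ := ∑' n : ℕ, harmonic k n * ((z ^ 2 / 4) ^ n / (n.factorial : ℂ) ^ 2)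

/-- `(z / 2) V_k'(z)` -/
noncomputable def dV (k : ℕ) (z : ℂ) : ℂ := ∑' n : ℕ, (n : ℂ) * (harmonic k n * ((z ^ 2 / 4) ^ n / (n.factorial : ℂ) ^ 2))

/-- `W_k(z) = (z / 2) (I_0(z) V_k'(z) - I_1(z) V_k(z))` -/
noncomputable def W (k : ℕ) (z : ℂ) : ℂ := I0 z * dV k z - z / 2 * I1 z * V k z

/-- `L_0(z) = K_0(z) = ∫_0^∞ exp(-z cosh t) dt`, `L_(k+1)(z) = ∫_1^∞ L_k(z t) dt / t` -/
noncomputable def iterated : ℕ → ℂ → ℂ
  | 0, z => ∫ t in Ioi (0 : ℝ), Complex.exp (-z * Real.cosh t)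
  | k + 1, z => ∫ t in Ioi (1 : ℝ), iterated k (z * t) / t

/-- `R_k(z)` -/
noncomputable def R (k : ℕ) (z : ℂ) : ℂ :=
  (∑' j : ℕ, (z ^ 2 / 4) ^ j / (j.factorial : ℂ) ^ 2 * ∑' i : ℕ, 1 / ((i : ℂ) + j + 1) ^ k) / I0 z

/-- `T_k(z)` -/
noncomputable def T (k : ℕ) (z : ℂ) : ℂ :=
  Complex.exp (-z) * ∑' j : ℕ, z ^ j / j.factorial * ∑' i : ℕ, 1 / ((i : ℂ) + j + 1) ^ k

/-- `δ_l(x) = ∫_0^∞ log (1 + s / x)^l e^(-s) ds` -/
noncomputable def delta (l : ℕ) (x : ℝ) : ℝ := ∫ s in Ioi (0 : ℝ), Real.log (1 + s / x) ^ l * Real.exp (-s)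

/-- the field `𝓕` -/
noncomputable def baseField : IntermediateField ℚ ℂ := IntermediateField.adjoin ℚ
  {w | ∃ b : ℂ, IsAlgebraic ℚ b ∧ (w = b ∨ w = Complex.exp b ∨ w = I0 b ∨ w = I1 b ∨
    ∃ k : ℕ, w = A k b ∨ w = W (k + 2) b)}

/-- `w` is algebraic over `𝓕` -/
def AlgebraicOver (w : ℂ) : Prop := IsAlgebraic baseField w

/-- `w` is algebraic over the field generated by `𝓕` and the numbers `y_j` -/
def AlgebraicOverAnd {τ : Type} (y : τ → ℂ) (w : ℂ) : Prop :=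
  IsAlgebraic (IntermediateField.adjoin baseField (range y)) w

/-- the names of the numbers -/
inductive Name : Type
  /-- `L_k(z)` -/
  | iterated (k : ℕ) (z : ℂ) : Name
  /-- `R_k(w)` -/
  | bessel (k : ℕ) (w : ℂ) : Name
  /-- `T_k(x)` -/
  | mean (k : ℕ) (x : ℂ) : Name
  /-- `δ_l(x)` -/
  | gompertz (l : ℕ) (x : ℝ) : Name

/-- the numbers -/
noncomputable def value : Name → ℂ
  | .iterated k z => iterated k z
  | .bessel k w => R k w
  | .mean k x => T k x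
  | .gompertz l x => (delta l x : ℂ)

/-- the names of the numbers `L_k(z)` (`z ∈ Z`, `k = 0` or `k + 1 ≤ N`), `R_k(w)` (`k ∈ Q`, `w` algebraic, `re w > 0`),
`T_k(x)` (`k ∈ Q`, `x ∈ X`), `δ_l(x)` (`1 ≤ l ≤ N`, `x ∈ P`) -/
def names (Q : Set ℕ) (Z X : Set ℂ) (N : ℕ) (P : Set ℝ) : Set Name :=
  {n | (∃ k, (k = 0 ∨ k + 1 ≤ N) ∧ ∃ z ∈ Z, n = .iterated k z) ∨
    (∃ k ∈ Q, ∃ w : ℂ, IsAlgebraic ℚ w ∧ 0 < w.re ∧ n = .bessel k w) ∨ (∃ k ∈ Q, ∃ x ∈ X, n = .mean k x) ∨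
    ∃ l x, 1 ≤ l ∧ l ≤ N ∧ x ∈ P ∧ n = .gompertz l x}

/-- the indices `j` for which `y_j` is algebraic over `𝓕`, and the names in `S` of the numbers which are algebraic over `𝓕` -/
def algebraicOnes {τ : Type} (y : τ → ℂ) (S : Set Name) : Set (τ ⊕ Name) :=
  {n | Sum.elim (fun j => AlgebraicOver (y j)) (fun i => i ∈ S ∧ AlgebraicOver (value i)) n}

/-- algebraic numbers `x` such that `x + x' ≠ 0` for all `x, x'` in the set -/
def NoOpposite (X : Set ℂ) : Prop := ∀ x ∈ X, IsAlgebraic ℚ x ∧ ∀ x' ∈ X, x + x' ≠ 0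

/-- the positive numbers of which a power with exponent `≥ 1` is in the group generated by `b_1, …, b_m` -/
def group {m : ℕ} (b : Fin m → ℝ) : Set ℝ := {x | 0 < x ∧ ∃ n : ℕ, 1 ≤ n ∧ ∃ e : Fin m → ℤ, x ^ n = ∏ i, b i ^ e i}

/-- the complex numbers of which a power with exponent `≥ 1` is in the group generated by `b_1, …, b_m` -/
def complexGroup {m : ℕ} (b : Fin m → ℝ) : Set ℂ := {x | ∃ n : ℕ, 1 ≤ n ∧ ∃ e : Fin m → ℤ, x ^ n = ∏ i, (b i : ℂ) ^ e i}

/-- the exponents `k ≥ 2` which are even or at most `2c + 3` -/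
def exponents (c : ℕ) : Set ℕ := {k | 2 ≤ k ∧ (Even k ∨ k ≤ 2 * c + 3)}

/-- the numbers `ζ(3), ζ(3) / π³, γ`, `ζ(5), ζ(7), …, ζ(2c + 3)`, `log b_1, …, log b_m` -/
noncomputable def constants (c : ℕ) {m : ℕ} (b : Fin m → ℝ) : Fin 3 ⊕ (Fin c ⊕ Fin m) → ℂ :=
  Sum.elim ![riemannZeta 3, riemannZeta 3 / (Real.pi : ℂ) ^ 3, (Real.eulerMascheroniConstant : ℂ)]
    (Sum.elim (fun i => riemannZeta ((2 * i + 5 : ℕ) : ℂ)) fun i => (Real.log (b i) : ℂ))

open Pool.Agent.N902.EW Pool.Agent.H18.Bes Pool.Agent.H18.Wd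

theorem iterated_eq (k : ℕ) (z : ℂ) : iterated k z = LL k z := by
  induction k generalizing z with
  | zero => rfl
  | succ k ih =>
    rw [iterated, LL]
    refine setIntegral_congr_fun measurableSet_Ioi fun t _ => ?_
    show iterated k (z * t) / t = LL k (z * t) / t
    rw [ih]

theorem baseField_eq : baseField = LB := by
  refine le_antisymm (IntermediateField.adjoin_le_iff.2 ?_) (IntermediateField.adjoin.mono _ _ _ ?_)
  · have hsub : GLb ⊆ LB := IntermediateField.subset_adjoin ℚ GLb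
    rintro w ⟨b, hb, rfl | rfl | rfl | rfl | ⟨k, rfl | rfl⟩⟩
    · exact hsub (Or.inl (Or.inl hb))
    · exact hsub (Or.inl (Or.inr ⟨b, hb, rfl⟩))
    · exact hsub (Or.inr ⟨b, hb, Or.inl rfl⟩)
    · exact hsub (Or.inr ⟨b, hb, Or.inr (Or.inl rfl)⟩)
    · exact Av_mem_LB hb k
    · exact hsub (Or.inr ⟨b, hb, Or.inr (Or.inr ⟨k, Or.inr rfl⟩)⟩)
  · rintro w ((hw | ⟨b, hb, rfl⟩) | ⟨b, hb, rfl | rfl | ⟨k, rfl | rfl⟩⟩)
    · exact ⟨w, hw, Or.inl rfl⟩
    · exact ⟨b, hb, Or.inr (Or.inl rfl)⟩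
    · exact ⟨b, hb, Or.inr (Or.inr (Or.inl rfl))⟩
    · exact ⟨b, hb, Or.inr (Or.inr (Or.inr (Or.inl rfl)))⟩
    · exact ⟨b, hb, Or.inr (Or.inr (Or.inr (Or.inr ⟨k + 1, Or.inl rfl⟩)))⟩
    · exact ⟨b, hb, Or.inr (Or.inr (Or.inr (Or.inr ⟨k, Or.inr rfl⟩)))⟩

theorem algebraicOver_iff (w : ℂ) : AlgebraicOver w ↔ IsAlgebraic LB w := by
  rw [AlgebraicOver, baseField_eq]

theorem algebraicOverAnd_iff {τ : Type} (y : τ → ℂ) (w : ℂ) : AlgebraicOverAnd y w ↔ w ∈ clf LB (range y) := by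
  rw [AlgebraicOverAnd, baseField_eq, mem_clf]

/-- the names as names of the counting theorem -/
noncomputable def dec {Q : Set ℕ} {Z X : Set ℂ} {N : ℕ} {P : Set ℝ} : Il Q Z X N P → Name :=
  Sum.elim (Sum.elim (fun p => .bessel p.1.1 p.1.2) fun p => .iterated p.1.1 p.1.2)
    (Sum.elim (fun p => .mean p.1.1 p.1.2) fun p => .gompertz p.1.1 p.1.2)

theorem value_dec {Q : Set ℕ} {Z X : Set ℂ} {N : ℕ} {P : Set ℝ} (i : Il Q Z X N P) : value (dec i) = tl i := by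
  rcases i with (p | p) | p | p
  · rfl
  · exact iterated_eq _ _
  · rfl
  · rfl

theorem dec_surj {Q : Set ℕ} {Z X : Set ℂ} {N : ℕ} {P : Set ℝ} {i : Name} (h : i ∈ names Q Z X N P) :
    ∃ j : Il Q Z X N P, dec j = i := by
  rcases h with ⟨k, hk, z, hz, rfl⟩ | ⟨k, hk, w, hw, hw', rfl⟩ | ⟨k, hk, x, hx, rfl⟩ | ⟨l, x, h1, h2, hx, rfl⟩
  · exact ⟨Sum.inl (Sum.inr ⟨(k, z), hk, hz⟩), rfl⟩
  · exact ⟨Sum.inl (Sum.inl ⟨(k, w), hk, hw, hw'⟩), rfl⟩
  · exact ⟨Sum.inr (Sum.inl ⟨(k, x), hk, hx⟩), rfl⟩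
  · exact ⟨Sum.inr (Sum.inr ⟨(l, x), h1, h2, hx⟩), rfl⟩

section

variable {τ : Type} [Fintype τ] {N : ℕ} {y : τ → ℂ} {Q : Set ℕ} {P : Set ℝ} {X Z : Set ℂ}

theorem count (hQ : ∀ k ∈ Q, 2 ≤ k ∧ AlgebraicOverAnd y (riemannZeta k)) (hLQ : ∀ k, 2 ≤ k → k ≤ N → k ∈ Q)
    (hP : ∀ x ∈ P, 0 < x ∧ IsAlgebraic ℚ x ∧ AlgebraicOverAnd y (Real.eulerMascheroniConstant + Real.log x))
    (hX : NoOpposite X) (hZ : ∀ z ∈ Z, IsAlgebraic ℚ z ∧ 0 < z.re)
    (hg : ∀ z ∈ Z, AlgebraicOverAnd y (Real.eulerMascheroniConstant + Complex.log (z / 2))) :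
    (algebraicOnes y (names Q Z X N P)).encard ≤ (Fintype.card τ : ℕ∞) := by
  have h := count_l (L := N) (P := P) (X := X) (Z := Z) (Q := Q) (y := y) (fun k hk => (hQ k hk).1) hLQ hX hZ
    (fun x hx => ⟨(hP x hx).1, (hP x hx).2.1⟩) (fun k hk => (algebraicOverAnd_iff y _).1 (hQ k hk).2) (fun x hx => by
      have := (algebraicOverAnd_iff y _).1 (hP x hx).2.2
      push_cast
      exact this) (fun z hz => (algebraicOverAnd_iff y _).1 (hg z hz))
  refine le_trans ?_ h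
  refine le_trans (encard_le_encard ?_) (encard_image_le (Sum.map id (dec (Q := Q) (Z := Z) (X := X) (N := N) (P := P))) _)
  rintro (j | i) hi
  · exact ⟨Sum.inl j, (algebraicOver_iff _).1 hi, rfl⟩
  · obtain ⟨h1, h2⟩ := hi
    obtain ⟨i', rfl⟩ := dec_surj h1
    refine ⟨Sum.inr i', ?_, rfl⟩
    show IsAlgebraic LB (tl i')
    rw [← value_dec]
    exact (algebraicOver_iff _).1 h2

theorem degree (hQ : ∀ k ∈ Q, 2 ≤ k ∧ AlgebraicOverAnd y (riemannZeta k)) (hLQ : ∀ k, 2 ≤ k → k ≤ N → k ∈ Q)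
    (hP : ∀ x ∈ P, 0 < x ∧ IsAlgebraic ℚ x ∧ AlgebraicOverAnd y (Real.eulerMascheroniConstant + Real.log x))
    (hX : NoOpposite X) (hZ : ∀ z ∈ Z, IsAlgebraic ℚ z ∧ 0 < z.re)
    (hg : ∀ z ∈ Z, AlgebraicOverAnd y (Real.eulerMascheroniConstant + Complex.log (z / 2)))
    (S : Finset Name) (hS : (S : Set Name) ⊆ names Q Z X N P) :
    (S.card : Cardinal) ≤ Algebra.trdeg baseField (IntermediateField.adjoin baseField (range y ∪ value '' (S : Set Name))) := by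
  classical
  choose f hf using fun i : S => dec_surj (hS i.2)
  have hfi : Function.Injective f := by
    intro i j hij
    apply Subtype.ext
    rw [← hf i, ← hf j, hij]
  have h := trdeg_l (L := N) (P := P) (X := X) (Z := Z) (Q := Q) (y := y) (fun k hk => (hQ k hk).1) hLQ hX hZ
    (fun x hx => ⟨(hP x hx).1, (hP x hx).2.1⟩) (fun k hk => (algebraicOverAnd_iff y _).1 (hQ k hk).2) (fun x hx => by
      have := (algebraicOverAnd_iff y _).1 (hP x hx).2.2
      push_cast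
      exact this) (fun z hz => (algebraicOverAnd_iff y _).1 (hg z hz)) (Finset.univ.map ⟨f, hfi⟩)
  rw [Finset.card_map, Finset.card_univ, Fintype.card_coe] at h
  have e : tl '' ((Finset.univ.map ⟨f, hfi⟩ : Finset (Il Q Z X N P)) : Set (Il Q Z X N P)) =
      value '' (S : Set Name) := by
    ext z
    constructor
    · rintro ⟨i, hi, rfl⟩
      simp only [Finset.coe_map, Finset.coe_univ, image_univ, mem_range, Function.Embedding.coeFn_mk] at hi
      obtain ⟨j, rfl⟩ := hi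
      refine ⟨j, j.2, ?_⟩
      rw [← value_dec, hf]
    · rintro ⟨i, hi, rfl⟩
      refine ⟨f ⟨i, hi⟩, ?_, ?_⟩
      · simp
      · rw [← value_dec, hf]
  rw [e] at h
  rw [baseField_eq]
  exact h

end

theorem group_alg {m : ℕ} {b : Fin m → ℝ} (hb : ∀ i, 0 < b i ∧ IsAlgebraic ℚ (b i)) {x : ℝ} (hx : x ∈ group b) :
    IsAlgebraic ℚ x := by
  obtain ⟨h0, n, hn, e, he⟩ := hx
  refine IsAlgebraic.of_pow (n := n) (by omega) ?_
  rw [he]
  have h1 : ∀ z : ℝ, IsAlgebraic ℚ z ↔ z ∈ algebraicClosure ℚ ℝ := fun z => by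
    rw [mem_algebraicClosure_iff]
  rw [h1]
  exact prod_mem fun i _ => zpow_mem ((h1 _).1 (hb i).2) _

theorem group_log {m c : ℕ} {b : Fin m → ℝ} (hb : ∀ i, 0 < b i ∧ IsAlgebraic ℚ (b i)) {x : ℝ} (hx : x ∈ group b) :
    AlgebraicOverAnd (constants c b) (Real.eulerMascheroniConstant + Real.log x) := by
  obtain ⟨h0, n, hn, e, he⟩ := hx
  have h1 : (n : ℝ) * Real.log x = ∑ i, (e i : ℝ) * Real.log (b i) := by
    rw [← Real.log_pow, he, Real.log_prod]
    · refine Finset.sum_congr rfl fun i _ => ?_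
      rw [Real.log_zpow]
    · intro i _
      exact zpow_ne_zero _ (hb i).1.ne'
  have hn0 : (n : ℝ) ≠ 0 := by
    have : n ≠ 0 := by omega
    exact_mod_cast this
  have h2 : Real.log x = (∑ i, (e i : ℝ) * Real.log (b i)) / n := by
    rw [← h1]
    field_simp
  rw [algebraicOverAnd_iff, h2]
  have h3 : ∀ i, constants c b i ∈ clf LB (range (constants c b)) := fun i => subset_clf _ ⟨i, rfl⟩
  push_cast
  refine (clf LB _).add_mem (h3 (Sum.inl 2)) ((clf LB _).div_mem ((clf LB _).sum_mem fun i _ => (clf LB _).mul_mem ?_ ?_) ?_)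
  · exact intCast_mem (clf LB _) _
  · exact h3 (Sum.inr (Sum.inr i))
  · exact natCast_mem (clf LB _) _

theorem complexGroup_log {m c : ℕ} {b : Fin m → ℝ} (hb : ∀ i, 0 < b i ∧ IsAlgebraic ℚ (b i)) {w : ℂ} (hw : w ≠ 0)
    (hx : w ∈ complexGroup b) :
    AlgebraicOverAnd (constants c b) (Real.eulerMascheroniConstant + Complex.log w) := by
  obtain ⟨n, hn, e, he⟩ := hx
  have h1 : Complex.exp ((n : ℂ) * Complex.log w) = Complex.exp (∑ i, (e i : ℂ) * (Real.log (b i) : ℂ)) := by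
    rw [Complex.exp_nat_mul, Complex.exp_log hw, he, Complex.exp_sum]
    refine Finset.prod_congr rfl fun i _ => ?_
    rw [Complex.exp_int_mul, ← Complex.ofReal_exp, Real.exp_log (hb i).1]
  obtain ⟨k, hk⟩ := Complex.exp_eq_exp_iff_exists_int.1 h1
  have hn0 : (n : ℂ) ≠ 0 := by
    have : n ≠ 0 := by omega
    exact_mod_cast this
  have h2 : Complex.log w = (∑ i, (e i : ℂ) * (Real.log (b i) : ℂ) + (k : ℂ) * (2 * Real.pi * Complex.I)) / n := by
    rw [← hk]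
    field_simp
  rw [algebraicOverAnd_iff, h2]
  have h3 : ∀ i, constants c b i ∈ clf LB (range (constants c b)) := fun i => subset_clf _ ⟨i, rfl⟩
  have hI : Complex.I ∈ clf LB (range (constants c b)) := by
    refine clf_pow (n := 2) (by norm_num) ?_
    rw [Complex.I_sq]
    exact (clf LB _).neg_mem (clf LB _).one_mem
  refine (clf LB _).add_mem (h3 (Sum.inl 2)) ((clf LB _).div_mem ((clf LB _).add_mem ((clf LB _).sum_mem fun i _ =>
    (clf LB _).mul_mem ?_ ?_) ((clf LB _).mul_mem ?_ ((clf LB _).mul_mem ((clf LB _).mul_mem ?_ ?_) hI))) ?_)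
  · exact intCast_mem (clf LB _) _
  · exact h3 (Sum.inr (Sum.inr i))
  · exact intCast_mem (clf LB _) _
  · exact ofNat_mem (clf LB _) 2
  · exact pi_mem' (h3 (Sum.inl 0)) (h3 (Sum.inl 1))
  · exact natCast_mem (clf LB _) _

theorem result :
    -- (1)
    (∀ (N r : ℕ) (y : Fin r → ℂ) (Q : Set ℕ) (P : Set ℝ) (X Z : Set ℂ),
      (∀ k ∈ Q, 2 ≤ k ∧ AlgebraicOverAnd y (riemannZeta k)) → (∀ k, 2 ≤ k → k ≤ N → k ∈ Q) →
      (∀ x ∈ P, 0 < x ∧ IsAlgebraic ℚ x ∧ AlgebraicOverAnd y (Real.eulerMascheroniConstant + Real.log x)) →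
      NoOpposite X → (∀ z ∈ Z, IsAlgebraic ℚ z ∧ 0 < z.re) →
      (∀ z ∈ Z, AlgebraicOverAnd y (Real.eulerMascheroniConstant + Complex.log (z / 2))) →
      (∀ S : Finset Name, (S : Set Name) ⊆ names Q Z X N P → (S.card : Cardinal) ≤
        Algebra.trdeg baseField (IntermediateField.adjoin baseField (range y ∪ value '' (S : Set Name)))) ∧
      (algebraicOnes y (names Q Z X N P)).encard ≤ (r : ℕ∞)) ∧
    -- (2)
    (∀ (c m : ℕ) (b : Fin m → ℝ) (X Z : Set ℂ), (∀ i, 0 < b i ∧ IsAlgebraic ℚ (b i)) →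
      NoOpposite X → (∀ z ∈ Z, IsAlgebraic ℚ z ∧ 0 < z.re) → (∀ z ∈ Z, z / 2 ∈ complexGroup b) →
      (algebraicOnes (constants c b) (names (exponents c) Z X (2 * c + 4) (group b))).encard ≤ ((m + c + 3 : ℕ) : ℕ∞)) := by
  refine ⟨fun N r y Q P X Z hQ hLQ hP hX hZ hg => ⟨fun S hS => degree hQ hLQ hP hX hZ hg S hS, ?_⟩,
    fun c m b X Z hb hX hZ hu => ?_⟩
  · have h := count hQ hLQ hP hX hZ hg
    rwa [Fintype.card_fin] at h
  · have h3 : ∀ i, constants c b i ∈ clf LB (range (constants c b)) := fun i => subset_clf _ ⟨i, rfl⟩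
    have h := count (τ := Fin 3 ⊕ (Fin c ⊕ Fin m)) (N := 2 * c + 4) (y := constants c b) (Q := exponents c)
      (P := group b) (X := X) (Z := Z)
      (fun k hk => ⟨hk.1, (algebraicOverAnd_iff _ _).2
        (mem_zeta' (h3 (Sum.inl 0)) (h3 (Sum.inl 1)) (fun i => h3 (Sum.inr (Sum.inl i))) k hk.1 hk.2)⟩)
      (fun k h2 hk => ⟨h2, by
        rcases Nat.lt_or_ge k (2 * c + 4) with h | h
        · exact Or.inr (by omega)
        · exact Or.inl (by rw [show k = 2 * (c + 2) by omega]; exact even_two_mul _)⟩)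
      (fun x hx => ⟨hx.1, group_alg hb hx, group_log hb hx⟩) hX hZ
      (fun z hz => complexGroup_log hb (div_ne_zero (ne_zero_of_re (hZ z hz).2) two_ne_zero) (hu z hz))
    refine h.trans_eq ?_
    simp only [Fintype.card_sum, Fintype.card_fin]
    congr 1
    ring

end Pool.Agent.Results.MP_e48a95_nt.IteratedIntegralsOfBesselK
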