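import Mathlib
import Pool.Agent.H18.Wd.HFin

set_option autoImplicit false

/-!
# `ζ(3)`, `ζ(3) / π³`, Euler's constant and the moments `∫_0^∞ t^(2k) exp(-z cosh t) dt` at algebraic points

For `re z ≥ 0`, `z ≠ 0` let `M_k(z) = ∫_0^∞ t^(2k) exp(-z cosh t) dt` (for `re z = 0` the limit of `M_k(z + ε)`, `ε → 0+`). These
are the derivatives of order `2k` of the Bessel function `K_s(z)` with respect to the order `s` at `s = 0`;
`M_k(z) / (2k)!` is a polynomial in `γ + log (z / 2)`, `ζ(2), …, ζ(2k + 1)` and the numbers `H_0(z), …, H_{2k+1}(z)`, where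
`H_j(z) = ∑_n h_j(n) (z / 2)^(2n) / n!^2` and `h_j(n)` is the complete symmetric function of degree `j` in `1, 1/2, …, 1/n`
(`(-1)^j j! H_j(z)` is the derivative of order `j` of `Γ(1 + s) (z / 2)^(-s) I_s(z)` at `s = 0`).

Let `𝓓` be the field generated by all numbers `b`, `exp b`, `H_{2m}(b)`, `H_{2m}'(b)`, where `b` is algebraic and `m ≥ 0`
(`H_0 = I_0` and `H_0' = I_1`). For integers `l ≥ 1`, `k ≥ 2`, for positive real `x` and for complex `z` let
`δ_l(x) = ∫_0^∞ log (1 + s / x)^l exp (-s) ds` (`δ_1(1)` is Gompertz's constant) and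
`T_k(z) = exp (-z) * ∑_j z^j/j! * ∑_{n > j} 1/n^k` (the Poisson mean of the tails of `ζ(k)`).

Let `L ≥ 0`, let `y_1, …, y_r` be complex numbers, `P` a set of positive algebraic numbers, `X` a set of algebraic numbers
such that `x + x' ≠ 0` for all `x, x'` in `X`, and `Z` a set of algebraic numbers `z ≠ 0`, `re z ≥ 0`, with different squares
(for instance a set of algebraic numbers with positive real part).
Suppose that the numbers `ζ(k)` (`2 ≤ k ≤ L`), `γ + log x` (`x ∈ P`) and `γ + log (z / 2)` (`z ∈ Z`) are algebraic over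
`𝓓(y_1, …, y_r)`.

(1) For every `n`, the field generated over `𝓓` by `y_1, …, y_r` and any `n` of the numbers
`δ_l(x)` (`1 ≤ l ≤ L`, `x ∈ P`), `T_k(x)` (`2 ≤ k ≤ L`, `x ∈ X`), `M_k(z)` (`z ∈ Z`, `k = 0` or `2k + 1 ≤ L`)
has transcendence degree at least `n` over `𝓓`, and at most `r` of all these numbers and `y_1, …, y_r` are algebraic over `𝓓`.

(2) Let `b_1, …, b_m` be positive algebraic numbers, `G` the set of the positive numbers of which a
power with exponent `≥ 1` is in the group generated by `b_1, …, b_m`, and suppose that for every `z` in `Z` a power of `z / 2` with exponent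
`≥ 1` is in this group. For every `c ≥ 0` at most `m + c + 3` of the numbers
`ζ(3), ζ(3) / π³, γ, ζ(5), ζ(7), …, ζ(2c + 3), log b_1, …, log b_m`, `δ_l(x)` (`1 ≤ l ≤ 2c + 4`, `x ∈ G`),
`T_k(x)` (`2 ≤ k ≤ 2c + 4`, `x ∈ X`) and `M_k(z)` (`0 ≤ k ≤ c + 1`, `z ∈ Z`) are algebraic over `𝓓`.

For instance (`m = c = 0`) at most three of the numbers `ζ(3)`, `ζ(3) / π³`, `γ`, `∫_0^∞ exp(-2 z cosh t) dt` and
`∫_0^∞ t² exp(-2 z cosh t) dt`, where `z` is a root of unity with positive real part, are algebraic over `𝓓`.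

Numbers of different names are counted separately. The proof: let `f(x) = I_0(a x)`. The iterated integrals (with respect to `dx / x`)
of words in the letters `f^2`, `f^(-2)` for a finite set of numbers `a` with different squares are linearly independent over the field
generated by `f`, `f'` and all iterated integrals of exponential polynomials (a weight argument with the powers of `f`); the functions `H_j`
are `f` times such integrals, and one obtains the algebraic independence of the functions `H_j` (`j ≥ 0`), `H_{2j}'` by derivations of the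
shuffle algebra. The values are then independent by the method of Siegel and Shidlovskii.
-/

namespace Pool.Agent.Results.MP_e48a95_nt.MomentsOfBesselIntegrals

open Set Filter Topology MeasureTheory

/-- the complete symmetric function of degree `j` in `1, 1/2, …, 1/n` -/
noncomputable def h : ℕ → ℕ → ℂ
  | 0, _ => 1
  | _ + 1, 0 => 0
  | j + 1, n + 1 => h (j + 1) n + h j (n + 1) / ((n : ℂ) + 1)

/-- `H_j(z)` -/
noncomputable def H (j : ℕ) (z : ℂ) : ℂ := ∑' n : ℕ, h j n * ((z ^ 2 / 4) ^ n / (n.factorial : ℂ) ^ 2)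

/-- `(z / 2) H_j'(z)` -/
noncomputable def dH (j : ℕ) (z : ℂ) : ℂ := ∑' n : ℕ, (n : ℂ) * (h j n * ((z ^ 2 / 4) ^ n / (n.factorial : ℂ) ^ 2))

/-- `M_k(z)` for `re z ≥ 0`, `z ≠ 0`, the limit of `∫_0^∞ t^(2k) exp (-(z + ε) cosh t) dt` for `ε → 0+` -/
noncomputable def moment (k : ℕ) (z : ℂ) : ℂ := limUnder (𝓝[>] (0 : ℝ)) fun ε : ℝ =>
  ∫ t in Ioi (0 : ℝ), (t : ℂ) ^ (2 * k) * Complex.exp (-(z + ε) * Real.cosh t)

/-- `δ_l(x) = ∫_0^∞ log (1 + s / x)^l e^(-s) ds` -/
noncomputable def delta (l : ℕ) (x : ℝ) : ℝ := ∫ s in Ioi (0 : ℝ), Real.log (1 + s / x) ^ l * Real.exp (-s)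

/-- `T_k(z)` -/
noncomputable def T (k : ℕ) (z : ℂ) : ℂ :=
  Complex.exp (-z) * ∑' j : ℕ, z ^ j / j.factorial * ∑' i : ℕ, 1 / ((i : ℂ) + j + 1) ^ k

/-- the field `𝓓` -/
noncomputable def baseField : IntermediateField ℚ ℂ := IntermediateField.adjoin ℚ
  {w | ∃ b : ℂ, IsAlgebraic ℚ b ∧ (w = b ∨ w = Complex.exp b ∨ ∃ m : ℕ, w = H (2 * m) b ∨ w = dH (2 * m) b)}

/-- `w` is algebraic over `𝓓` -/
def AlgebraicOver (w : ℂ) : Prop := IsAlgebraic baseField w

/-- `w` is algebraic over the field generated by `𝓓` and the numbers `y_j` -/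
def AlgebraicOverAnd {τ : Type} (y : τ → ℂ) (w : ℂ) : Prop :=
  IsAlgebraic (IntermediateField.adjoin baseField (range y)) w

/-- the names of the numbers -/
inductive Name : Type
  /-- `δ_l(x)` -/
  | gompertz (l : ℕ) (x : ℝ) : Name
  /-- `T_k(x)` -/
  | mean (k : ℕ) (x : ℂ) : Name
  /-- `M_k(z)` -/
  | bessel (k : ℕ) (z : ℂ) : Name

/-- the numbers -/
noncomputable def value : Name → ℂ
  | .gompertz l x => (delta l x : ℂ)
  | .mean k x => T k x
  | .bessel k z => moment k z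

/-- the names of the numbers `δ_l(x)` (`1 ≤ l ≤ L`, `x ∈ P`), `T_k(x)` (`2 ≤ k ≤ L`, `x ∈ X`), `M_k(z)` (`z ∈ Z`, `k = 0` or
`2k + 1 ≤ L`) -/
def names (L : ℕ) (P : Set ℝ) (X Z : Set ℂ) : Set Name :=
  {n | (∃ l x, 1 ≤ l ∧ l ≤ L ∧ x ∈ P ∧ n = .gompertz l x) ∨ (∃ k x, 2 ≤ k ∧ k ≤ L ∧ x ∈ X ∧ n = .mean k x) ∨
    ∃ k, (k = 0 ∨ 2 * k + 1 ≤ L) ∧ ∃ z ∈ Z, n = .bessel k z}

/-- the indices `j` for which `y_j` is algebraic over `𝓓`, and the names in `S` of the numbers which are algebraic over `𝓓` -/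
def algebraicOnes {τ : Type} (y : τ → ℂ) (S : Set Name) : Set (τ ⊕ Name) :=
  {n | Sum.elim (fun j => AlgebraicOver (y j)) (fun i => i ∈ S ∧ AlgebraicOver (value i)) n}

/-- algebraic numbers `x` such that `x + x' ≠ 0` for all `x, x'` in the set -/
def NoOpposite (X : Set ℂ) : Prop := ∀ x ∈ X, IsAlgebraic ℚ x ∧ ∀ x' ∈ X, x + x' ≠ 0

/-- algebraic numbers `z ≠ 0`, `re z ≥ 0`, with different squares -/
def DifferentSquares (Z : Set ℂ) : Prop :=
  ∀ z ∈ Z, IsAlgebraic ℚ z ∧ z ≠ 0 ∧ 0 ≤ z.re ∧ ∀ z' ∈ Z, z ^ 2 = z' ^ 2 → z = z'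

/-- the positive numbers of which a power with exponent `≥ 1` is in the group generated by `b_1, …, b_m` -/
def group {m : ℕ} (b : Fin m → ℝ) : Set ℝ := {x | 0 < x ∧ ∃ n : ℕ, 1 ≤ n ∧ ∃ e : Fin m → ℤ, x ^ n = ∏ i, b i ^ e i}

/-- the complex numbers of which a power with exponent `≥ 1` is in the group generated by `b_1, …, b_m` -/
def complexGroup {m : ℕ} (b : Fin m → ℝ) : Set ℂ := {x | ∃ n : ℕ, 1 ≤ n ∧ ∃ e : Fin m → ℤ, x ^ n = ∏ i, (b i : ℂ) ^ e i}

/-- the numbers `ζ(3), ζ(3) / π³, γ`, `ζ(5), ζ(7), …, ζ(2c + 3)`, `log b_1, …, log b_m` -/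
noncomputable def constants (c : ℕ) {m : ℕ} (b : Fin m → ℝ) : Fin 3 ⊕ (Fin c ⊕ Fin m) → ℂ :=
  Sum.elim ![riemannZeta 3, riemannZeta 3 / (Real.pi : ℂ) ^ 3, (Real.eulerMascheroniConstant : ℂ)]
    (Sum.elim (fun i => riemannZeta ((2 * i + 5 : ℕ) : ℂ)) fun i => (Real.log (b i) : ℂ))

open Pool.Agent.N902.EW Pool.Agent.H18.Bes Pool.Agent.H18.Wd

theorem h_eq (j n : ℕ) : h j n = hs ℂ j n := by
  induction j generalizing n with
  | zero => rw [hs_zero, h]
  | succ j ih =>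
    induction n with
    | zero => rw [hs_succ_zero, h]
    | succ n ihn => rw [hs_succ_succ, h, ihn, ih]

theorem H_eq (j : ℕ) (z : ℂ) : H j z = Hv j z := by
  rw [H, Hv]
  exact tsum_congr fun n => by rw [h_eq]

theorem dH_eq (j : ℕ) (z : ℂ) : dH j z = Hd j z := by
  rw [dH, Hd]
  exact tsum_congr fun n => by rw [h_eq]

theorem baseField_eq : baseField = DB := by
  rw [baseField, DB]
  congr 1
  ext w
  constructor
  · rintro ⟨b, hb, rfl | rfl | ⟨m, rfl | rfl⟩⟩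
    · exact Or.inl (Or.inl hb)
    · exact Or.inl (Or.inr ⟨b, hb, rfl⟩)
    · exact Or.inr ⟨b, hb, m, Or.inl (H_eq _ _)⟩
    · exact Or.inr ⟨b, hb, m, Or.inr (dH_eq _ _)⟩
  · rintro ((hw | ⟨b, hb, rfl⟩) | ⟨b, hb, m, rfl | rfl⟩)
    · exact ⟨w, hw, Or.inl rfl⟩
    · exact ⟨b, hb, Or.inr (Or.inl rfl)⟩
    · exact ⟨b, hb, Or.inr (Or.inr ⟨m, Or.inl (H_eq _ _).symm⟩)⟩
    · exact ⟨b, hb, Or.inr (Or.inr ⟨m, Or.inr (dH_eq _ _).symm⟩)⟩

theorem algebraicOver_iff (w : ℂ) : AlgebraicOver w ↔ IsAlgebraic DB w := by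
  rw [AlgebraicOver, baseField_eq]

theorem algebraicOverAnd_iff {τ : Type} (y : τ → ℂ) (w : ℂ) : AlgebraicOverAnd y w ↔ w ∈ clf DB (range y) := by
  rw [AlgebraicOverAnd, baseField_eq, mem_clf]

theorem moment_eq (k : ℕ) (z : ℂ) : moment k z = Mo k z := rfl

/-- the limit exists -/
theorem moment_tendsto (k : ℕ) {z : ℂ} (hz : 0 ≤ z.re) (h0 : z ≠ 0) :
    Tendsto (fun ε : ℝ => ∫ t in Ioi (0 : ℝ), (t : ℂ) ^ (2 * k) * Complex.exp (-(z + ε) * Real.cosh t)) (𝓝[>] 0)
      (𝓝 (moment k z)) := by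
  rw [moment_eq, Mo_eq k hz h0, Mo_fun]
  exact tm_tendsto k hz h0

/-- on the right half plane the limit is the integral -/
theorem moment_eq_integral (k : ℕ) {z : ℂ} (hz : 0 < z.re) :
    moment k z = ∫ t in Ioi (0 : ℝ), (t : ℂ) ^ (2 * k) * Complex.exp (-z * Real.cosh t) := by
  have h0 : z ≠ 0 := by rintro rfl; simp at hz
  have h3 : ((2 * k).factorial : ℂ) ≠ 0 := by exact_mod_cast (2 * k).factorial_ne_zero
  rw [moment_eq, Mo_eq k hz.le h0, ← tm_eq k hz, tm]
  have h4 : ∫ t in Ioi (0 : ℝ), tf (2 * k) 0 z t =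
      ∫ t in Ioi (0 : ℝ), (t : ℂ) ^ (2 * k) * Complex.exp (-z * Real.cosh t) := by
    refine integral_congr_ae (Eventually.of_forall fun t => ?_)
    show tf (2 * k) 0 z t = _
    rw [tf, kf, pow_zero, one_mul]
  rw [h4]
  field_simp

/-- the names as names of the counting theorem -/
noncomputable def dec {L : ℕ} {P : Set ℝ} {X Z : Set ℂ} : Iz L Z ⊕ Ix L P X → Name :=
  Sum.elim (fun p => .bessel p.1.2 p.1.1) (Sum.elim (fun p => .mean p.1.1 p.1.2) fun p => .gompertz p.1.1 p.1.2)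

theorem value_dec {L : ℕ} {P : Set ℝ} {X Z : Set ℂ} (i : Iz L Z ⊕ Ix L P X) : value (dec i) = mu i := by
  rcases i with z | p | p <;> rfl

theorem dec_surj {L : ℕ} {P : Set ℝ} {X Z : Set ℂ} {i : Name} (h : i ∈ names L P X Z) :
    ∃ j : Iz L Z ⊕ Ix L P X, dec j = i := by
  rcases h with ⟨l, x, h1, h2, hx, rfl⟩ | ⟨k, x, h1, h2, hx, rfl⟩ | ⟨k, hk, z, hz, rfl⟩
  · exact ⟨Sum.inr (Sum.inr ⟨(l, x), h1, h2, hx⟩), rfl⟩
  · exact ⟨Sum.inr (Sum.inl ⟨(k, x), h1, h2, hx⟩), rfl⟩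
  · exact ⟨Sum.inl ⟨(z, k), hz, hk⟩, rfl⟩

theorem pts {Z : Set ℂ} (hZ : DifferentSquares Z) : Pts Z :=
  ⟨fun z hz => ⟨(hZ z hz).1, (hZ z hz).2.1⟩, fun z hz w hw h => (hZ z hz).2.2.2 w hw h⟩

section

variable {τ : Type} [Fintype τ] {L : ℕ} {y : τ → ℂ} {P : Set ℝ} {X Z : Set ℂ}

theorem count (hP : ∀ x ∈ P, 0 < x ∧ IsAlgebraic ℚ x ∧ AlgebraicOverAnd y (Real.eulerMascheroniConstant + Real.log x))
    (hX : NoOpposite X) (hZ : DifferentSquares Z)
    (hu : ∀ z ∈ Z, AlgebraicOverAnd y (Real.eulerMascheroniConstant + Complex.log (z / 2)))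
    (hL : ∀ k : ℕ, 2 ≤ k → k ≤ L → AlgebraicOverAnd y (riemannZeta k)) :
    (algebraicOnes y (names L P X Z)).encard ≤ (Fintype.card τ : ℕ∞) := by
  have h := count_M (L := L) (P := P) (X := X) (Z := Z) (y := y) (fun x hx => ⟨(hP x hx).1, (hP x hx).2.1⟩) hX (pts hZ)
    (fun z hz => (hZ z hz).2.2.1)
    (fun k h2 hk => (algebraicOverAnd_iff y _).1 (hL k h2 hk)) (fun x hx => by
      have := (algebraicOverAnd_iff y _).1 (hP x hx).2.2
      push_cast
      exact this) (fun z hz => (algebraicOverAnd_iff y _).1 (hu z hz))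
  refine le_trans ?_ h
  refine le_trans (encard_le_encard ?_) (encard_image_le (Sum.map id (dec (L := L) (P := P) (X := X) (Z := Z))) _)
  rintro (j | i) hi
  · exact ⟨Sum.inl j, (algebraicOver_iff _).1 hi, rfl⟩
  · obtain ⟨h1, h2⟩ := hi
    obtain ⟨i', rfl⟩ := dec_surj h1
    refine ⟨Sum.inr i', ?_, rfl⟩
    show IsAlgebraic DB (mu i')
    rw [← value_dec]
    exact (algebraicOver_iff _).1 h2

theorem degree (hP : ∀ x ∈ P, 0 < x ∧ IsAlgebraic ℚ x ∧ AlgebraicOverAnd y (Real.eulerMascheroniConstant + Real.log x))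
    (hX : NoOpposite X) (hZ : DifferentSquares Z)
    (hu : ∀ z ∈ Z, AlgebraicOverAnd y (Real.eulerMascheroniConstant + Complex.log (z / 2)))
    (hL : ∀ k : ℕ, 2 ≤ k → k ≤ L → AlgebraicOverAnd y (riemannZeta k))
    (A : Finset Name) (hA : (A : Set Name) ⊆ names L P X Z) :
    (A.card : Cardinal) ≤ Algebra.trdeg baseField (IntermediateField.adjoin baseField (range y ∪ value '' (A : Set Name))) := by
  classical
  choose f hf using fun i : A => dec_surj (hA i.2)
  have hfi : Function.Injective f := by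
    intro i j hij
    apply Subtype.ext
    rw [← hf i, ← hf j, hij]
  have h := trdeg_M (L := L) (P := P) (X := X) (Z := Z) (y := y) (fun x hx => ⟨(hP x hx).1, (hP x hx).2.1⟩) hX (pts hZ)
    (fun z hz => (hZ z hz).2.2.1)
    (fun k h2 hk => (algebraicOverAnd_iff y _).1 (hL k h2 hk)) (fun x hx => by
      have := (algebraicOverAnd_iff y _).1 (hP x hx).2.2
      push_cast
      exact this) (fun z hz => (algebraicOverAnd_iff y _).1 (hu z hz)) (Finset.univ.map ⟨f, hfi⟩)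
  rw [Finset.card_map, Finset.card_univ, Fintype.card_coe] at h
  have e : mu '' ((Finset.univ.map ⟨f, hfi⟩ : Finset (Iz L Z ⊕ Ix L P X)) : Set (Iz L Z ⊕ Ix L P X)) =
      value '' (A : Set Name) := by
    ext z
    constructor
    · rintro ⟨i, hi, rfl⟩
      simp only [Finset.coe_map, Finset.coe_univ, image_univ, mem_range, Function.Embedding.coeFn_mk] at hi
      obtain ⟨j, rfl⟩ := hi
      refine ⟨j, j.2, ?_⟩
      rw [← value_dec, hf]
    · rintro ⟨i, hi, rfl⟩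
      refine ⟨f ⟨i, hi⟩, ?_, ?_⟩
      · simp
      · rw [← value_dec, hf]
  rw [e] at h
  rw [baseField_eq]
  exact h

end

theorem group_alg {m : ℕ} {b : Fin m → ℝ} (hb : ∀ i, 0 < b i ∧ IsAlgebraic ℚ (b i)) {x : ℝ} (hx : x ∈ group b) :
    IsAlgebraic ℚ x := by
  obtain ⟨h0, n, hn, e, he⟩ := hx
  refine IsAlgebraic.of_pow (n := n) (by omega) ?_
  rw [he]
  have h1 : ∀ z : ℝ, IsAlgebraic ℚ z ↔ z ∈ algebraicClosure ℚ ℝ := fun z => by
    rw [mem_algebraicClosure_iff]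
  rw [h1]
  exact prod_mem fun i _ => zpow_mem ((h1 _).1 (hb i).2) _

theorem group_log {m c : ℕ} {b : Fin m → ℝ} (hb : ∀ i, 0 < b i ∧ IsAlgebraic ℚ (b i)) {x : ℝ} (hx : x ∈ group b) :
    AlgebraicOverAnd (constants c b) (Real.eulerMascheroniConstant + Real.log x) := by
  obtain ⟨h0, n, hn, e, he⟩ := hx
  have h1 : (n : ℝ) * Real.log x = ∑ i, (e i : ℝ) * Real.log (b i) := by
    rw [← Real.log_pow, he, Real.log_prod]
    · refine Finset.sum_congr rfl fun i _ => ?_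
      rw [Real.log_zpow]
    · intro i _
      exact zpow_ne_zero _ (hb i).1.ne'
  have hn0 : (n : ℝ) ≠ 0 := by
    have : n ≠ 0 := by omega
    exact_mod_cast this
  have h2 : Real.log x = (∑ i, (e i : ℝ) * Real.log (b i)) / n := by
    rw [← h1]
    field_simp
  rw [algebraicOverAnd_iff, h2]
  have h3 : ∀ i, constants c b i ∈ clf DB (range (constants c b)) := fun i => subset_clf _ ⟨i, rfl⟩
  push_cast
  refine (clf DB _).add_mem (h3 (Sum.inl 2)) ((clf DB _).div_mem ((clf DB _).sum_mem fun i _ => (clf DB _).mul_mem ?_ ?_) ?_)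
  · exact intCast_mem (clf DB _) _
  · exact h3 (Sum.inr (Sum.inr i))
  · exact natCast_mem (clf DB _) _

theorem pi_mem {T : Set ℂ} (h3 : riemannZeta 3 ∈ clf DB T) (h4 : riemannZeta 3 / (Real.pi : ℂ) ^ 3 ∈ clf DB T) :
    (Real.pi : ℂ) ∈ clf DB T := by
  have hz : riemannZeta 3 ≠ 0 := by
    refine riemannZeta_ne_zero_of_one_lt_re ?_
    norm_num
  have hpi0 : (Real.pi : ℂ) ≠ 0 := by exact_mod_cast Real.pi_ne_zero
  refine clf_pow (F := DB) (n := 3) (by norm_num) ?_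
  have h5 : (Real.pi : ℂ) ^ 3 = riemannZeta 3 / (riemannZeta 3 / (Real.pi : ℂ) ^ 3) := by
    field_simp
  rw [h5]
  exact (clf DB _).div_mem h3 h4

theorem complexGroup_log {m c : ℕ} {b : Fin m → ℝ} (hb : ∀ i, 0 < b i ∧ IsAlgebraic ℚ (b i)) {w : ℂ} (hw : w ≠ 0)
    (hx : w ∈ complexGroup b) :
    AlgebraicOverAnd (constants c b) (Real.eulerMascheroniConstant + Complex.log w) := by
  obtain ⟨n, hn, e, he⟩ := hx
  have h1 : Complex.exp ((n : ℂ) * Complex.log w) = Complex.exp (∑ i, (e i : ℂ) * (Real.log (b i) : ℂ)) := by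
    rw [Complex.exp_nat_mul, Complex.exp_log hw, he, Complex.exp_sum]
    refine Finset.prod_congr rfl fun i _ => ?_
    rw [Complex.exp_int_mul, ← Complex.ofReal_exp, Real.exp_log (hb i).1]
  obtain ⟨k, hk⟩ := Complex.exp_eq_exp_iff_exists_int.1 h1
  have hn0 : (n : ℂ) ≠ 0 := by
    have : n ≠ 0 := by omega
    exact_mod_cast this
  have h2 : Complex.log w = (∑ i, (e i : ℂ) * (Real.log (b i) : ℂ) + (k : ℂ) * (2 * Real.pi * Complex.I)) / n := by
    rw [← hk]
    field_simp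
  rw [algebraicOverAnd_iff, h2]
  have h3 : ∀ i, constants c b i ∈ clf DB (range (constants c b)) := fun i => subset_clf _ ⟨i, rfl⟩
  have hI : Complex.I ∈ clf DB (range (constants c b)) := by
    refine clf_pow (n := 2) (by norm_num) ?_
    rw [Complex.I_sq]
    exact (clf DB _).neg_mem (clf DB _).one_mem
  refine (clf DB _).add_mem (h3 (Sum.inl 2)) ((clf DB _).div_mem ((clf DB _).add_mem ((clf DB _).sum_mem fun i _ =>
    (clf DB _).mul_mem ?_ ?_) ((clf DB _).mul_mem ?_ ((clf DB _).mul_mem ((clf DB _).mul_mem ?_ ?_) hI))) ?_)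
  · exact intCast_mem (clf DB _) _
  · exact h3 (Sum.inr (Sum.inr i))
  · exact intCast_mem (clf DB _) _
  · exact ofNat_mem (clf DB _) 2
  · exact pi_mem (h3 (Sum.inl 0)) (h3 (Sum.inl 1))
  · exact natCast_mem (clf DB _) _

theorem result :
    -- (1)
    (∀ (L r : ℕ) (y : Fin r → ℂ) (P : Set ℝ) (X Z : Set ℂ),
      (∀ x ∈ P, 0 < x ∧ IsAlgebraic ℚ x ∧ AlgebraicOverAnd y (Real.eulerMascheroniConstant + Real.log x)) →
      NoOpposite X → DifferentSquares Z →
      (∀ z ∈ Z, AlgebraicOverAnd y (Real.eulerMascheroniConstant + Complex.log (z / 2))) →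
      (∀ k : ℕ, 2 ≤ k → k ≤ L → AlgebraicOverAnd y (riemannZeta k)) →
      (∀ A : Finset Name, (A : Set Name) ⊆ names L P X Z → (A.card : Cardinal) ≤
        Algebra.trdeg baseField (IntermediateField.adjoin baseField (range y ∪ value '' (A : Set Name)))) ∧
      (algebraicOnes y (names L P X Z)).encard ≤ (r : ℕ∞)) ∧
    -- (2)
    (∀ (c m : ℕ) (b : Fin m → ℝ) (X Z : Set ℂ), (∀ i, 0 < b i ∧ IsAlgebraic ℚ (b i)) →
      NoOpposite X → DifferentSquares Z → (∀ z ∈ Z, z / 2 ∈ complexGroup b) →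
      (algebraicOnes (constants c b) (names (2 * c + 4) (group b) X Z)).encard ≤ ((m + c + 3 : ℕ) : ℕ∞)) := by
  refine ⟨fun L r y P X Z hP hX hZ hu hL => ⟨fun A hA => degree hP hX hZ hu hL A hA, ?_⟩,
    fun c m b X Z hb hX hZ hu => ?_⟩
  · have h := count hP hX hZ hu hL
    rwa [Fintype.card_fin] at h
  · have h3 : ∀ i, constants c b i ∈ clf DB (range (constants c b)) := fun i => subset_clf _ ⟨i, rfl⟩
    have h := count (τ := Fin 3 ⊕ (Fin c ⊕ Fin m)) (L := 2 * c + 4) (y := constants c b) (P := group b) (X := X) (Z := Z)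
      (fun x hx => ⟨hx.1, group_alg hb hx, group_log hb hx⟩) hX hZ
      (fun z hz => complexGroup_log hb (div_ne_zero (hZ z hz).2.1 two_ne_zero) (hu z hz))
      (fun k h2 hk => (algebraicOverAnd_iff _ _).2
        (mem_zeta (h3 (Sum.inl 0)) (h3 (Sum.inl 1)) (fun i => h3 (Sum.inr (Sum.inl i))) k h2 hk))
    refine h.trans_eq ?_
    simp only [Fintype.card_sum, Fintype.card_fin]
    congr 1
    ring

end Pool.Agent.Results.MP_e48a95_nt.MomentsOfBesselIntegrals
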